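import Pool.Agent.H76.NN.Defs

/-!
MODULE Trd.  Dimension = transcendence degree: bookkeeping (paper 1.10).
-/

set_option autoImplicit false

open MvPolynomial

namespace Pool.H76.NN

variable {k : Type} [Field k] [CharZero k] {σ : Type} [Fintype σ] [DecidableEq σ]

omit [CharZero k] [DecidableEq σ] in
theorem trdeg_quot (I : Ideal (MvPolynomial σ k)) [I.IsPrime] :
    Algebra.trdeg k (MvPolynomial σ k ⧸ I) = (dim I : Cardinal) := by
  have h : Algebra.trdeg k (MvPolynomial σ k ⧸ I) < Cardinal.aleph0 :=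
    trdeg_lt_aleph0_of_finiteType
  exact (Cardinal.cast_toNat_of_lt_aleph0 h).symm

omit [CharZero k] [DecidableEq σ] in
theorem trdeg_FF (I : Ideal (MvPolynomial σ k)) [I.IsPrime] :
    Algebra.trdeg k (FF I) = (dim I : Cardinal) := by
  obtain ⟨s, hs⟩ := exists_isTranscendenceBasis k (MvPolynomial σ k ⧸ I)
  have : Algebra.IsAlgebraic (MvPolynomial σ k ⧸ I) (FF I) :=
    IsLocalization.isAlgebraic _ (nonZeroDivisors (MvPolynomial σ k ⧸ I))
  have h2 := hs.algebraMap_comp (A := FF I)
  rw [← h2.cardinalMk_eq_trdeg, hs.cardinalMk_eq_trdeg, trdeg_quot]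

omit [CharZero k] [DecidableEq σ] in
theorem dim_le (I : Ideal (MvPolynomial σ k)) [I.IsPrime] :
    dim I ≤ Fintype.card σ := by
  have h := trdeg_le_of_surjective (Ideal.Quotient.mkₐ k I)
    (Ideal.Quotient.mkₐ_surjective k I)
  rw [trdeg_quot, MvPolynomial.trdeg_of_isDomain] at h
  simpa using h

omit [CharZero k] [DecidableEq σ] in
theorem card_le_dim (I : Ideal (MvPolynomial σ k)) [I.IsPrime] {r : ℕ} (z : Fin r → FF I)
    (hz : AlgebraicIndependent k z) : r ≤ dim I := by
  have h := hz.cardinalMk_le_trdeg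
  rw [trdeg_FF] at h
  simpa using h

omit [CharZero k] [DecidableEq σ] in
theorem isTranscendenceBasis_of_card (I : Ideal (MvPolynomial σ k)) [I.IsPrime] {r : ℕ}
    (z : Fin r → FF I) (hz : AlgebraicIndependent k z) (hr : r = dim I) :
    IsTranscendenceBasis k z := by
  refine hz.isTranscendenceBasis_of_trdeg_le_of_finite ?_
  rw [trdeg_FF, ← hr]
  simp

omit [CharZero k] [DecidableEq σ] in
theorem dim_eq_of_basis (I : Ideal (MvPolynomial σ k)) [I.IsPrime] {r : ℕ} (z : Fin r → FF I)
    (hz : IsTranscendenceBasis k z) : r = dim I := by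
  have h := hz.cardinalMk_eq_trdeg
  rw [trdeg_FF] at h
  simpa using h

theorem dim_bot (k : Type) [Field k] (σ : Type) [Fintype σ] :
    dim (⊥ : Ideal (MvPolynomial σ k)) = Fintype.card σ := by
  have h := (AlgEquiv.quotientBot k (MvPolynomial σ k)).trdeg_eq
  rw [MvPolynomial.trdeg_of_isDomain] at h
  unfold dim
  rw [h]
  simp

omit [CharZero k] [DecidableEq σ] in
/-- Paper 1.10. -/
theorem dim_lt (I J : Ideal (MvPolynomial σ k)) [I.IsPrime] [J.IsPrime] (h : I < J) :
    dim J < dim I := by
  by_contra hlt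
  rw [not_lt] at hlt
  let π : (MvPolynomial σ k ⧸ I) →ₐ[k] (MvPolynomial σ k ⧸ J) := Ideal.Quotient.factorₐ k h.le
  have hπ : Function.Surjective π := Ideal.Quotient.factor_surjective h.le
  obtain ⟨s, hs⟩ := exists_isTranscendenceBasis k (MvPolynomial σ k ⧸ J)
  have hcard : Cardinal.mk s = (dim J : Cardinal) := by
    rw [hs.cardinalMk_eq_trdeg, trdeg_quot]
  have hfin : Finite s := by
    rw [← Cardinal.mk_lt_aleph0_iff, hcard]
    exact Cardinal.natCast_lt_aleph0
  choose g hg using hπ
  let x : s → (MvPolynomial σ k ⧸ I) := fun i => g i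
  have hx : (π : _ → _) ∘ x = ((↑) : s → (MvPolynomial σ k ⧸ J)) := by
    funext i
    exact hg i
  have hxi : AlgebraicIndependent k x := by
    apply AlgebraicIndependent.of_comp π
    rw [hx]
    exact hs.1
  have hxb : IsTranscendenceBasis k x := by
    refine hxi.isTranscendenceBasis_of_trdeg_le_of_finite ?_
    rw [trdeg_quot, hcard]
    exact_mod_cast hlt
  have halg := hxb.isAlgebraic
  obtain ⟨u, huJ, huI⟩ := SetLike.exists_of_lt h
  have hu0 : (Ideal.Quotient.mk I u) ≠ 0 := by
    rw [Ne, Ideal.Quotient.eq_zero_iff_mem]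
    exact huI
  obtain ⟨r, hr0, v, hv⟩ := (halg.isAlgebraic (Ideal.Quotient.mk I u)).exists_nonzero_dvd
    (mem_nonZeroDivisors_of_ne_zero hu0)
  obtain ⟨P, hP⟩ : ∃ P : MvPolynomial s k, aeval x P = (r : MvPolynomial σ k ⧸ I) := by
    have hr : (r : MvPolynomial σ k ⧸ I) ∈ (aeval x : MvPolynomial s k →ₐ[k] _).range := by
      have h5 := Algebra.adjoin_range_eq_range_aeval k x
      exact h5 ▸ r.2
    exact hr
  have hP' : aeval x P = (r : MvPolynomial σ k ⧸ I) := hP
  have h1 : π (aeval x P) = 0 := by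
    rw [hP']
    have : (r : MvPolynomial σ k ⧸ I) = Ideal.Quotient.mk I u * v := hv
    rw [this, map_mul]
    have h2 : π (Ideal.Quotient.mk I u) = Ideal.Quotient.mk J u := rfl
    rw [h2, Ideal.Quotient.eq_zero_iff_mem.mpr huJ, zero_mul]
  have h3 : aeval ((↑) : s → (MvPolynomial σ k ⧸ J)) P = 0 := by
    rw [← hx]
    rw [← h1]
    exact (MvPolynomial.comp_aeval_apply (f := x) π P).symm
  have hP0 : P = 0 := by
    have := hs.1
    rw [algebraicIndependent_iff] at this
    exact this P h3
  apply hr0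
  apply Subtype.ext
  change (r : MvPolynomial σ k ⧸ I) = 0
  rw [← hP', hP0, map_zero]

omit [CharZero k] [DecidableEq σ] in
theorem dim_le_of_le (I J : Ideal (MvPolynomial σ k)) [I.IsPrime] [J.IsPrime] (h : I ≤ J) :
    dim J ≤ dim I := by
  rcases h.eq_or_lt with h | h
  · subst h
    exact le_rfl
  · exact (dim_lt I J h).le

omit [CharZero k] [DecidableEq σ] in
theorem eq_of_le_of_dim (I J : Ideal (MvPolynomial σ k)) [I.IsPrime] [J.IsPrime] (h : I ≤ J)
    (hd : dim J = dim I) : I = J := by
  rcases h.eq_or_lt with h | h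
  · exact h
  · have := dim_lt I J h
    omega

omit [CharZero k] [DecidableEq σ] in
/-- A finite extension field of `k(z)`, `z` of length `dim I` independent. -/
theorem finite_over_adjoin (I : Ideal (MvPolynomial σ k)) [I.IsPrime] {r : ℕ}
    (z : Fin r → FF I) (hz : AlgebraicIndependent k z) (hr : r = dim I) :
    FiniteDimensional (IntermediateField.adjoin k (Set.range z)) (FF I) := by
  have hb := isTranscendenceBasis_of_card I z hz hr
  have halg := hb.isAlgebraic_field
  have h1 : Algebra.EssFiniteType k (FF I) := by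
    have : Algebra.EssFiniteType (MvPolynomial σ k ⧸ I) (FF I) :=
      Algebra.EssFiniteType.of_isLocalization _ (nonZeroDivisors (MvPolynomial σ k ⧸ I))
    exact Algebra.EssFiniteType.comp k (MvPolynomial σ k ⧸ I) (FF I)
  have h2 : Algebra.EssFiniteType (IntermediateField.adjoin k (Set.range z)) (FF I) :=
    Algebra.EssFiniteType.of_comp k _ _
  exact Algebra.finite_of_essFiniteType_of_isAlgebraic

end Pool.H76.NN
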