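import Pool.Agent.H76.NN.Defs

/-!
MODULE Basic.  First properties of `ev`, `V`, `hf`.
`V I t` is the image of a finite dimensional space
(`MvPolynomial.restrictTotalDegree`, basis = monomials of degree `≤ t`, number `(t+n).choose n`, `n = card σ`);
`ev I` has kernel `I` for `I` prime (the coordinate ring is a domain); for `I ≤ J` the space
`V J t` is a quotient of `V I t` (both are quotients of the polynomials of degree `≤ t` by
`I ∩ ..` and `J ∩ ..`).
-/

set_option autoImplicit false

open MvPolynomial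

namespace Pool.H76.NN

variable {k : Type} [Field k] [CharZero k] {σ : Type} [Fintype σ] [DecidableEq σ]

omit [CharZero k] [Fintype σ] [DecidableEq σ] in
private theorem ev_apply' (I : Ideal (MvPolynomial σ k)) (F : MvPolynomial σ k) :
    ev I F = algebraMap (MvPolynomial σ k ⧸ I) (FF I) (Ideal.Quotient.mk I F) := rfl

theorem ev_eq_zero (I : Ideal (MvPolynomial σ k)) [I.IsPrime] (F : MvPolynomial σ k) :
    ev I F = 0 ↔ F ∈ I := by
  rw [ev_apply', map_eq_zero_iff _ (IsFractionRing.injective (MvPolynomial σ k ⧸ I) (FF I)),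
    Ideal.Quotient.eq_zero_iff_mem]

theorem ev_eq_aeval (I : Ideal (MvPolynomial σ k)) (F : MvPolynomial σ k) :
    ev I F = aeval (xi I) F := by
  have h : ev I = aeval (xi I) := by
    apply MvPolynomial.algHom_ext
    intro i
    rw [aeval_X]
    rfl
  rw [h]

theorem mem_V (I : Ideal (MvPolynomial σ k)) (t : ℕ) (x : FF I) :
    x ∈ V I t ↔ ∃ F : MvPolynomial σ k, F.totalDegree ≤ t ∧ ev I F = x := by
  unfold V
  rw [Submodule.mem_map]
  constructor
  · rintro ⟨F, hF, h⟩
    exact ⟨F, (mem_restrictTotalDegree _ _ _).1 hF, h⟩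
  · rintro ⟨F, hF, h⟩
    exact ⟨F, (mem_restrictTotalDegree _ _ _).2 hF, h⟩

theorem V_finite (I : Ideal (MvPolynomial σ k)) (t : ℕ) : Module.Finite k (V I t) := by
  unfold V
  exact Module.Finite.map _ _

theorem V_mono (I : Ideal (MvPolynomial σ k)) {s t : ℕ} (h : s ≤ t) : V I s ≤ V I t := by
  intro x hx
  obtain ⟨F, hF, rfl⟩ := (mem_V I s x).1 hx
  exact (mem_V I t _).2 ⟨F, hF.trans h, rfl⟩

theorem one_mem_V (I : Ideal (MvPolynomial σ k)) (t : ℕ) : (1 : FF I) ∈ V I t :=
  (mem_V I t _).2 ⟨1, by rw [totalDegree_one]; exact Nat.zero_le _, map_one _⟩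

theorem mul_mem_V (I : Ideal (MvPolynomial σ k)) {s t : ℕ} {x y : FF I} (hx : x ∈ V I s)
    (hy : y ∈ V I t) : x * y ∈ V I (s + t) := by
  obtain ⟨F, hF, rfl⟩ := (mem_V I s x).1 hx
  obtain ⟨G, hG, rfl⟩ := (mem_V I t y).1 hy
  exact (mem_V I _ _).2 ⟨F * G, (totalDegree_mul F G).trans (Nat.add_le_add hF hG), map_mul _ _ _⟩

theorem hf_mono (I : Ideal (MvPolynomial σ k)) {s t : ℕ} (h : s ≤ t) : hf I s ≤ hf I t := by
  haveI := V_finite I t
  exact Submodule.finrank_mono (V_mono I h)

theorem hf_pos (I : Ideal (MvPolynomial σ k)) [I.IsPrime] (t : ℕ) : 0 < hf I t := by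
  haveI := V_finite I t
  unfold hf
  rw [Module.finrank_pos_iff]
  refine ⟨⟨⟨1, one_mem_V I t⟩, 0, ?_⟩⟩
  intro h
  have h1 : (1 : FF I) = 0 := congrArg Subtype.val h
  exact one_ne_zero h1

/-- The map from the quotient of the polynomials of degree `≤ t`. -/
private theorem hf_eq_finrank (I : Ideal (MvPolynomial σ k)) [I.IsPrime] (t : ℕ) :
    hf I t + Module.finrank k
      (restrictTotalDegree σ k t ⊓ (I.restrictScalars k) : Submodule k (MvPolynomial σ k)) =
      Module.finrank k (restrictTotalDegree σ k t) := by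
  let f : restrictTotalDegree σ k t →ₗ[k] FF I :=
    (ev I).toLinearMap.comp (restrictTotalDegree σ k t).subtype
  have h1 : LinearMap.range f = V I t := by
    unfold V
    rw [LinearMap.range_comp, Submodule.range_subtype]
  have h2 := LinearMap.finrank_range_add_finrank_ker f
  rw [h1] at h2
  rw [← h2]
  congr 1
  have h3 : (restrictTotalDegree σ k t ⊓ (I.restrictScalars k) :
      Submodule k (MvPolynomial σ k)) = (LinearMap.ker f).map (restrictTotalDegree σ k t).subtype := by
    ext F
    rw [Submodule.mem_inf, Submodule.restrictScalars_mem, Submodule.mem_map]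
    constructor
    · rintro ⟨h4, h5⟩
      exact ⟨⟨F, h4⟩, (ev_eq_zero I F).2 h5, rfl⟩
    · rintro ⟨G, h4, rfl⟩
      exact ⟨G.2, (ev_eq_zero I _).1 h4⟩
  rw [h3, Submodule.finrank_map_subtype_eq]

theorem hf_le_of_le (I J : Ideal (MvPolynomial σ k)) [I.IsPrime] [J.IsPrime] (h : I ≤ J)
    (t : ℕ) : hf J t ≤ hf I t := by
  have h1 := hf_eq_finrank I t
  have h2 := hf_eq_finrank J t
  have h3 : (restrictTotalDegree σ k t ⊓ (I.restrictScalars k) : Submodule k (MvPolynomial σ k)) ≤
      (restrictTotalDegree σ k t ⊓ (J.restrictScalars k) : Submodule k (MvPolynomial σ k)) :=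
    inf_le_inf_left _ (fun x hx => h hx)
  haveI : Module.Finite k (restrictTotalDegree σ k t ⊓ (J.restrictScalars k) :
    Submodule k (MvPolynomial σ k)) := Submodule.finiteDimensional_inf_left _ _
  have h4 := Submodule.finrank_mono h3
  omega

theorem finrank_restrict (k : Type) [Field k] (σ : Type) [Fintype σ] (t : ℕ) :
    Module.finrank k (restrictTotalDegree σ k t) =
      (t + Fintype.card σ).choose (Fintype.card σ) := by
  classical
  have h1 : Module.finrank k (restrictTotalDegree σ k t) =
      Nat.card {n : σ →₀ ℕ | (n.sum fun _ e => e) ≤ t} :=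
    Module.finrank_eq_nat_card_basis (basisRestrictSupport k _)
  have h2 : {n : σ →₀ ℕ | (n.sum fun _ e => e) ≤ t} =
      (((Finset.range (t + 1)).biUnion fun j => (Finset.univ : Finset σ).finsuppAntidiag j :
        Finset (σ →₀ ℕ)) : Set (σ →₀ ℕ)) := by
    ext n
    rw [Set.mem_ofPred_eq, Finset.mem_coe, Finset.mem_biUnion]
    constructor
    · intro h
      refine ⟨n.sum fun _ e => e, Finset.mem_range.2 (by omega), ?_⟩
      rw [Finset.mem_finsuppAntidiag']
      exact ⟨rfl, Finset.subset_univ _⟩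
    · rintro ⟨j, hj, h⟩
      rw [Finset.mem_finsuppAntidiag'] at h
      have := Finset.mem_range.1 hj
      have h3 := h.1
      change (n.sum fun _ e => e) = j at h3
      omega
  rw [h1, h2]
  have h3 : ∀ t : ℕ, ∑ j ∈ Finset.range (t + 1), (Fintype.card σ).multichoose j =
      (t + Fintype.card σ).choose (Fintype.card σ) := by
    intro t
    have h4 : ∑ j ∈ Finset.range (t + 1), (Fintype.card σ).multichoose j =
        (Fintype.card σ + 1).multichoose t := by
      induction t with
      | zero => simp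
      | succ t ih =>
        rw [Finset.sum_range_succ, ih, Nat.multichoose_succ_succ, add_comm]
    rw [h4, Nat.multichoose_eq]
    have h5 : Fintype.card σ + 1 + t - 1 = t + Fintype.card σ := by omega
    rw [h5]
    exact Nat.choose_symm_add
  rw [Nat.card_coe_set_eq, Set.ncard_coe_finset, Finset.card_biUnion, ← h3 t]
  · apply Finset.sum_congr rfl
    intro j _
    rw [Finset.card_finsuppAntidiag_nat_eq_multichoose, Finset.card_univ]
  · intro i _ j _ hij
    rw [Function.onFun, Finset.disjoint_left]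
    intro n hn hn'
    rw [Finset.mem_finsuppAntidiag'] at hn hn'
    exact hij (hn.1.symm.trans hn'.1)

theorem hf_le_choose (I : Ideal (MvPolynomial σ k)) (t : ℕ) :
    hf I t ≤ (t + Fintype.card σ).choose (Fintype.card σ) := by
  rw [← finrank_restrict k σ t]
  unfold hf V
  exact Submodule.finrank_map_le _ _

/-- rank formula: the polynomials of degree `≤ t` in `I` have codimension `hf I t`. -/
theorem hf_add (I : Ideal (MvPolynomial σ k)) [I.IsPrime] (t : ℕ) :
    hf I t + Module.finrank k
      (restrictTotalDegree σ k t ⊓ (I.restrictScalars k) :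
        Submodule k (MvPolynomial σ k)) = (t + Fintype.card σ).choose (Fintype.card σ) := by
  rw [hf_eq_finrank, finrank_restrict]

/-- If every element of degree `≤ t` of `J` lies in `I` and `I ≤ J` then the Hilbert functions
agree at `t`. -/
theorem hf_eq_of (I J : Ideal (MvPolynomial σ k)) [I.IsPrime] [J.IsPrime] (h : I ≤ J) (t : ℕ)
    (ht : ∀ F ∈ J, F.totalDegree ≤ t → F ∈ I) : hf J t = hf I t := by
  have h1 := hf_eq_finrank I t
  have h2 := hf_eq_finrank J t
  have h3 : (restrictTotalDegree σ k t ⊓ (I.restrictScalars k) : Submodule k (MvPolynomial σ k)) =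
      (restrictTotalDegree σ k t ⊓ (J.restrictScalars k) : Submodule k (MvPolynomial σ k)) := by
    ext F
    rw [Submodule.mem_inf, Submodule.mem_inf, Submodule.restrictScalars_mem,
      Submodule.restrictScalars_mem, mem_restrictTotalDegree]
    exact ⟨fun h5 => ⟨h5.1, h h5.2⟩, fun h5 => ⟨h5.1, ht F h5.2 h5.1⟩⟩
  rw [h3] at h1
  omega

theorem adjoin_xi (I : Ideal (MvPolynomial σ k)) [I.IsPrime] :
    IntermediateField.adjoin k (Set.range (xi I)) = ⊤ := by
  rw [eq_top_iff]
  intro x _
  obtain ⟨a, b, hb, rfl⟩ := IsFractionRing.div_surjective (A := MvPolynomial σ k ⧸ I) x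
  have h : ∀ a : MvPolynomial σ k ⧸ I, algebraMap (MvPolynomial σ k ⧸ I) (FF I) a ∈
      IntermediateField.adjoin k (Set.range (xi I)) := by
    intro a
    obtain ⟨F, rfl⟩ := Ideal.Quotient.mk_surjective a
    rw [← ev_apply', ev_eq_aeval]
    apply IntermediateField.algebra_adjoin_le_adjoin k (Set.range (xi I))
    rw [Algebra.adjoin_range_eq_range_aeval]
    exact ⟨F, rfl⟩
  exact div_mem (h a) (h b)

theorem totalDegree_lf (c : σ → k) : (lf c).totalDegree ≤ 1 := by
  unfold lf
  refine totalDegree_finsetSum_le ?_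
  intro i _
  refine (totalDegree_mul _ _).trans ?_
  rw [totalDegree_C, totalDegree_X]

theorem yb_mem_V (I : Ideal (MvPolynomial σ k)) {r : ℕ} (y : Fin r → σ → k) (i : Fin r) :
    yb I y i ∈ V I 1 :=
  (mem_V I 1 _).2 ⟨lf (y i), totalDegree_lf (y i), rfl⟩

end Pool.H76.NN
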