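import Mathlib

/-!
MODULE ChA (about 150 lines).  Numerical comparison lemmas for binomial coefficients (elementary; use that
`(t+r).choose r` is `∏_{i=1..r} (t+i)/i`, so `t^r ≤ r! C(t+r,r) ≤ (t+r)^r`, and limits `t → ∞`).
-/

set_option autoImplicit false

namespace Pool.H76.NN

theorem choose_lower (t r : ℕ) : (t + 1) ^ r ≤ r.factorial * (t + r).choose r := by
  rw [← Nat.ascFactorial_eq_factorial_mul_choose]
  exact Nat.pow_succ_le_ascFactorial _ _

theorem choose_upper (t r : ℕ) : r.factorial * (t + r).choose r ≤ (t + r) ^ r := by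
  rw [← Nat.ascFactorial_eq_factorial_mul_choose]
  exact Nat.ascFactorial_le_pow_add _ _

theorem choose_le_pow (t r : ℕ) : (t + r).choose r ≤ (t + 1) ^ r := by
  induction r with
  | zero => simp
  | succ r ih =>
    have h1 := Nat.add_one_mul_choose_eq (t + r) r
    have h2 : (t + r + 1).choose (r + 1) * (r + 1) ≤ (t + 1) ^ (r + 1) * (r + 1) := by
      rw [← h1]
      calc (t + r + 1) * (t + r).choose r ≤ ((t + 1) * (r + 1)) * (t + 1) ^ r :=
            Nat.mul_le_mul (by nlinarith [Nat.zero_le (t * r)]) ih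
        _ = (t + 1) ^ (r + 1) * (r + 1) := by ring
    have h3 := Nat.le_of_mul_le_mul_right h2 (by omega)
    rwa [show t + (r + 1) = t + r + 1 by ring]

/-- the comparison of leading coefficients -/
private theorem lim_compare {A B E c r : ℕ} (h : ∀ m : ℕ, A * m ^ r ≤ B * (m * E + c) ^ r) :
    A ≤ B * E ^ r := by
  have hlim : Filter.Tendsto (fun m : ℕ => (B : ℝ) * ((E : ℝ) + c / (m : ℝ)) ^ r) Filter.atTop
      (nhds ((B : ℝ) * ((E : ℝ) + 0) ^ r)) := by
    refine Filter.Tendsto.const_mul _ (Filter.Tendsto.pow (Filter.Tendsto.const_add _ ?_) _)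
    exact tendsto_const_div_atTop_nhds_zero_nat (c : ℝ)
  have hle : (A : ℝ) ≤ (B : ℝ) * ((E : ℝ) + 0) ^ r := by
    refine ge_of_tendsto hlim ?_
    filter_upwards [Filter.eventually_gt_atTop 0] with m hm
    have hm' : (0 : ℝ) < m := by exact_mod_cast hm
    have h1 : (A : ℝ) * (m : ℝ) ^ r ≤ B * ((m : ℝ) * E + c) ^ r := by exact_mod_cast h m
    have h2 : ((m : ℝ) * E + c) = m * ((E : ℝ) + c / m) := by field_simp
    rw [h2, mul_pow] at h1
    have h3 : (0 : ℝ) < (m : ℝ) ^ r := pow_pos hm' r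
    have h4 : (A : ℝ) * (m : ℝ) ^ r ≤ (B * ((E : ℝ) + c / m) ^ r) * (m : ℝ) ^ r := by
      calc (A : ℝ) * (m : ℝ) ^ r ≤ B * ((m : ℝ) ^ r * ((E : ℝ) + c / m) ^ r) := h1
        _ = _ := by ring
    exact le_of_mul_le_mul_right h4 h3
  rw [add_zero] at hle
  exact_mod_cast hle

theorem choose_compare {a b c r : ℕ}
    (h : ∀ t : ℕ, a * (t + r).choose r ≤ b * (t + c + r).choose r) : a ≤ b := by
  have key : a ≤ b * 1 ^ r := by
    refine lim_compare (E := 1) (c := c + r) ?_
    intro m
    calc a * m ^ r ≤ a * (m + 1) ^ r :=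
          Nat.mul_le_mul_left _ (Nat.pow_le_pow_left (by omega) _)
      _ ≤ a * (r.factorial * (m + r).choose r) := Nat.mul_le_mul_left _ (choose_lower m r)
      _ = r.factorial * (a * (m + r).choose r) := by ring
      _ ≤ r.factorial * (b * (m + c + r).choose r) := Nat.mul_le_mul_left _ (h m)
      _ = b * (r.factorial * (m + c + r).choose r) := by ring
      _ ≤ b * (m + c + r) ^ r := Nat.mul_le_mul_left _ (choose_upper (m + c) r)
      _ = b * (m * 1 + (c + r)) ^ r := by rw [mul_one, add_assoc]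
  simpa using key

/-- growth comparison: dimensions -/
theorem choose_compare_pow {a C s r : ℕ} (ha : 0 < a)
    (h : ∀ t : ℕ, a * (t + r).choose r ≤ C * (t + 1) ^ s) : r ≤ s := by
  by_contra hrs
  push Not at hrs
  obtain ⟨d, rfl⟩ := Nat.exists_eq_add_of_lt hrs
  set r := s + d + 1 with hr
  have h1 : ∀ t : ℕ, (t + 1) ^ r ≤ r.factorial * C * (t + 1) ^ s := by
    intro t
    calc (t + 1) ^ r ≤ a * (t + 1) ^ r := Nat.le_mul_of_pos_left _ ha
      _ ≤ a * (r.factorial * (t + r).choose r) := Nat.mul_le_mul_left _ (choose_lower t r)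
      _ = r.factorial * (a * (t + r).choose r) := by ring
      _ ≤ r.factorial * (C * (t + 1) ^ s) := Nat.mul_le_mul_left _ (h t)
      _ = _ := by ring
  have h2 := h1 (r.factorial * C)
  have h3 : (r.factorial * C + 1) ^ r =
      (r.factorial * C + 1) ^ (d + 1) * (r.factorial * C + 1) ^ s := by
    rw [← pow_add]; congr 1; omega
  rw [h3] at h2
  have h4 := Nat.le_of_mul_le_mul_right h2 (pow_pos (by omega) s)
  have h5 : r.factorial * C + 1 ≤ (r.factorial * C + 1) ^ (d + 1) :=
    Nat.le_self_pow (by omega) _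
  omega

/-- sums of powers -/
private theorem pow_step (m q : ℕ) : (m + 1) ^ (q + 1) ≤ m ^ (q + 1) + (q + 1) * (m + 1) ^ q := by
  induction q with
  | zero => simp
  | succ q ih =>
    have h1 : m ^ (q + 1) ≤ (m + 1) ^ (q + 1) := Nat.pow_le_pow_left (by omega) _
    calc (m + 1) ^ (q + 1 + 1) = (m + 1) ^ (q + 1) * (m + 1) := pow_succ _ _
      _ ≤ (m ^ (q + 1) + (q + 1) * (m + 1) ^ q) * (m + 1) := Nat.mul_le_mul_right _ ih
      _ = m ^ (q + 1 + 1) + m ^ (q + 1) + (q + 1) * (m + 1) ^ (q + 1) := by ring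
      _ ≤ m ^ (q + 1 + 1) + (m + 1) ^ (q + 1) + (q + 1) * (m + 1) ^ (q + 1) := by omega
      _ = m ^ (q + 1 + 1) + (q + 1 + 1) * (m + 1) ^ (q + 1) := by ring

private theorem sum_pow_lower (m q : ℕ) :
    m ^ (q + 1) ≤ (q + 1) * ∑ i ∈ Finset.range m, (i + 1) ^ q := by
  induction m with
  | zero => simp
  | succ m ih =>
    rw [Finset.sum_range_succ, mul_add]
    exact (pow_step m q).trans (by omega)

/-- lower bound of the sums in `bezout_num` and `count_compare` -/
private theorem sum_choose_lower (D m q : ℕ) : D ^ q * m ^ (q + 1) ≤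
    (q + 1).factorial * ∑ l ∈ Finset.range (m + 1), (l * D + q).choose q := by
  have h1 : D ^ q * ∑ i ∈ Finset.range m, (i + 1) ^ q ≤
      q.factorial * ∑ l ∈ Finset.range (m + 1), (l * D + q).choose q := by
    rw [Finset.sum_range_succ', Finset.mul_sum, mul_add, Finset.mul_sum]
    refine le_add_right (Finset.sum_le_sum fun i _ => ?_)
    calc D ^ q * (i + 1) ^ q = ((i + 1) * D) ^ q := by rw [mul_pow, mul_comm]
      _ ≤ ((i + 1) * D + 1) ^ q := Nat.pow_le_pow_left (by omega) _
      _ ≤ _ := choose_lower _ _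
  calc D ^ q * m ^ (q + 1) ≤ D ^ q * ((q + 1) * ∑ i ∈ Finset.range m, (i + 1) ^ q) :=
        Nat.mul_le_mul_left _ (sum_pow_lower m q)
    _ = (q + 1) * (D ^ q * ∑ i ∈ Finset.range m, (i + 1) ^ q) := by ring
    _ ≤ (q + 1) * (q.factorial * ∑ l ∈ Finset.range (m + 1), (l * D + q).choose q) :=
        Nat.mul_le_mul_left _ h1
    _ = _ := by rw [Nat.factorial_succ]; ring

/-- Paper 1.11, numerical part: if for all `m`
`S * ∑_{l<m} C(l D + r - 1, r - 1) ≤ δ C(m D + c + r, r)` then `S ≤ δ D`.  (`D ≥ 1`, `r ≥ 1`.)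
Compare the coefficients of `m^r`: left `S D^{r-1}/r!`, right `δ D^r/r!`. -/
theorem bezout_num {S δ D r c : ℕ} (hD : 1 ≤ D) (hr : 1 ≤ r)
    (h : ∀ m : ℕ, S * ∑ l ∈ Finset.range m, ((l * D) + (r - 1)).choose (r - 1) ≤
      δ * (m * D + c + r).choose r) : S ≤ δ * D := by
  obtain ⟨q, rfl⟩ := Nat.exists_eq_add_of_le' hr
  simp only [Nat.add_sub_cancel] at h
  have key : S * D ^ q ≤ δ * D ^ (q + 1) := by
    refine lim_compare (c := D + c + (q + 1)) ?_
    intro m
    calc S * D ^ q * m ^ (q + 1) = S * (D ^ q * m ^ (q + 1)) := by ring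
      _ ≤ S * ((q + 1).factorial * ∑ l ∈ Finset.range (m + 1), (l * D + q).choose q) :=
          Nat.mul_le_mul_left _ (sum_choose_lower D m q)
      _ = (q + 1).factorial * (S * ∑ l ∈ Finset.range (m + 1), (l * D + q).choose q) := by ring
      _ ≤ (q + 1).factorial * (δ * ((m + 1) * D + c + (q + 1)).choose (q + 1)) :=
          Nat.mul_le_mul_left _ (h (m + 1))
      _ = δ * ((q + 1).factorial * ((m + 1) * D + c + (q + 1)).choose (q + 1)) := by ring
      _ ≤ δ * ((m + 1) * D + c + (q + 1)) ^ (q + 1) :=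
          Nat.mul_le_mul_left _ (choose_upper _ _)
      _ = δ * (m * D + (D + c + (q + 1))) ^ (q + 1) := by congr 2; ring
  have h2 : S * D ^ q ≤ (δ * D) * D ^ q := by
    calc S * D ^ q ≤ δ * D ^ (q + 1) := key
      _ = _ := by ring
  exact Nat.le_of_mul_le_mul_right h2 (pow_pos hD q)

/-- the tuples with sum at most `s` -/
private theorem exists_tuples (q s : ℕ) : ∃ F : Finset (Fin q → ℕ), (∀ a ∈ F, ∑ i, a i ≤ s) ∧
    F.card = (s + q).choose q := by
  classical
  induction q generalizing s with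
  | zero => exact ⟨{fun i => i.elim0}, by simp, by simp⟩
  | succ q ih =>
    choose F hF hc using ih
    refine ⟨(Finset.range (s + 1)).biUnion fun x => (F x).image (Fin.cons (s - x)), ?_, ?_⟩
    · intro a ha
      simp only [Finset.mem_biUnion, Finset.mem_range, Finset.mem_image] at ha
      obtain ⟨x, hx, b, hb, rfl⟩ := ha
      rw [Fin.sum_univ_succ]
      simp only [Fin.cons_zero, Fin.cons_succ]
      have := hF x b hb
      omega
    · rw [Finset.card_biUnion]
      · rw [show s + (q + 1) = s + q + 1 by ring, ← Nat.sum_range_add_choose]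
        refine Finset.sum_congr rfl fun x _ => ?_
        rw [Finset.card_image_of_injective _ (Fin.cons_right_injective _), hc]
      · intro x hx y hy hxy
        rw [Function.onFun, Finset.disjoint_left]
        intro a ha hb
        simp only [Finset.mem_image] at ha hb
        obtain ⟨u, -, rfl⟩ := ha
        obtain ⟨v, -, hv⟩ := hb
        have h0 := congrFun hv 0
        simp only [Fin.cons_zero] at h0
        simp only [Finset.coe_range, Set.mem_Iio] at hx hy
        omega

/-- Paper 3.7 (5): number of `(a,b)`, `a ∈ ℕ^{q}`, with `p|a| + g b ≤ t`: at least about `t^{q+1}/((q+1)! p^q g)`.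
If `T * #{(a,b) : p |a| + g b ≤ t} ≤ δ C(t+c+q+1,q+1)` for all `t` then `T ≤ δ p^q g`. -/
theorem count_compare {T δ p g c q : ℕ} (hp : 1 ≤ p) (hg : 1 ≤ g)
    (h : ∀ (t : ℕ) (W : Finset ((Fin q → ℕ) × ℕ)), (∀ w ∈ W, p * (∑ i, w.1 i) + g * w.2 ≤ t) →
      T * W.card ≤ δ * (t + c + (q + 1)).choose (q + 1)) : T ≤ δ * p ^ q * g := by
  classical
  -- the sets
  have hW : ∀ N : ℕ, ∃ W : Finset ((Fin q → ℕ) × ℕ),
      (∀ w ∈ W, p * (∑ i, w.1 i) + g * w.2 ≤ N * (p * g)) ∧
      W.card = p * ∑ l ∈ Finset.range N, (l * g + q).choose q := by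
    intro N
    choose F hF hc using exists_tuples q
    refine ⟨(Finset.range N).biUnion fun l => (F (l * g)) ×ˢ
      ((Finset.range p).image fun i => p * (N - 1 - l) + i), ?_, ?_⟩
    · intro w hw
      simp only [Finset.mem_biUnion, Finset.mem_range, Finset.mem_product, Finset.mem_image] at hw
      obtain ⟨l, hl, h1, i, hi, h2⟩ := hw
      have h3 := hF _ _ h1
      rw [← h2]
      obtain ⟨d, hd⟩ : ∃ d, N = l + d + 1 := ⟨N - l - 1, by omega⟩
      have h4 : N - 1 - l = d := by omega
      rw [h4, hd]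
      have h5 : p * (∑ i, w.1 i) ≤ p * (l * g) := Nat.mul_le_mul_left _ h3
      have h6 : g * (p * d + i) ≤ g * (p * d + p) := Nat.mul_le_mul_left _ (by omega)
      calc p * (∑ i, w.1 i) + g * (p * d + i) ≤ p * (l * g) + g * (p * d + p) := by omega
        _ = (l + d + 1) * (p * g) := by ring
    · rw [Finset.card_biUnion]
      · rw [Finset.mul_sum]
        refine Finset.sum_congr rfl fun l _ => ?_
        rw [Finset.card_product, hc, Finset.card_image_of_injective, Finset.card_range, mul_comm]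
        intro a b hab
        simpa using hab
      · intro x hx y hy hxy
        rw [Function.onFun, Finset.disjoint_left]
        intro a ha hb
        simp only [Finset.mem_product, Finset.mem_image, Finset.mem_range] at ha hb
        obtain ⟨-, i, hi, h1⟩ := ha
        obtain ⟨-, j, hj, h2⟩ := hb
        simp only [Finset.coe_range, Set.mem_Iio] at hx hy
        have h3 : p * (N - 1 - x) + i = p * (N - 1 - y) + j := by rw [h1, h2]
        have h4 : (p * (N - 1 - x) + i) / p = N - 1 - x := by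
          rw [Nat.mul_add_div (by omega), Nat.div_eq_of_lt hi, add_zero]
        have h5 : (p * (N - 1 - y) + j) / p = N - 1 - y := by
          rw [Nat.mul_add_div (by omega), Nat.div_eq_of_lt hj, add_zero]
        rw [h3, h5] at h4
        omega
  have key : T * p * g ^ q ≤ δ * (p * g) ^ (q + 1) := by
    refine lim_compare (c := p * g + c + (q + 1)) ?_
    intro m
    obtain ⟨W, h1, h2⟩ := hW (m + 1)
    have h3 := h _ W h1
    rw [h2] at h3
    calc T * p * g ^ q * m ^ (q + 1) = T * p * (g ^ q * m ^ (q + 1)) := by ring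
      _ ≤ T * p * ((q + 1).factorial * ∑ l ∈ Finset.range (m + 1), (l * g + q).choose q) :=
          Nat.mul_le_mul_left _ (sum_choose_lower g m q)
      _ = (q + 1).factorial * (T * (p * ∑ l ∈ Finset.range (m + 1), (l * g + q).choose q)) := by
          ring
      _ ≤ (q + 1).factorial * (δ * ((m + 1) * (p * g) + c + (q + 1)).choose (q + 1)) :=
          Nat.mul_le_mul_left _ h3
      _ = δ * ((q + 1).factorial * ((m + 1) * (p * g) + c + (q + 1)).choose (q + 1)) := by ring
      _ ≤ δ * ((m + 1) * (p * g) + c + (q + 1)) ^ (q + 1) :=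
          Nat.mul_le_mul_left _ (choose_upper _ _)
      _ = δ * (m * (p * g) + (p * g + c + (q + 1))) ^ (q + 1) := by congr 2; ring
  have h2 : T * (p * g ^ q) ≤ (δ * p ^ q * g) * (p * g ^ q) := by
    calc T * (p * g ^ q) = T * p * g ^ q := by ring
      _ ≤ δ * (p * g) ^ (q + 1) := key
      _ = _ := by ring
  exact Nat.le_of_mul_le_mul_right h2 (Nat.mul_pos hp (pow_pos hg q))

end Pool.H76.NN
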