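import Mathlib

/-!
MP_4f0605_nt (helper76): affine varieties over a field `k` of characteristic zero, definitions.
Paper: /team-store/h76_n64_paper.md, section 0.  `σ` is a finite index type (the coordinates),
`I` is always a prime ideal of `MvPolynomial σ k`.
-/

set_option autoImplicit false

open MvPolynomial

namespace Pool.H76.NN

noncomputable section

variable {k : Type} [Field k] {σ : Type} [Fintype σ] [DecidableEq σ]

/-- Field of fractions of the coordinate ring (a field if `I` is prime). -/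
abbrev FF (I : Ideal (MvPolynomial σ k)) : Type := FractionRing (MvPolynomial σ k ⧸ I)

/-- Evaluation of polynomials at the generic point of `V(I)`. -/
def ev (I : Ideal (MvPolynomial σ k)) : MvPolynomial σ k →ₐ[k] FF I :=
  (IsScalarTower.toAlgHom k (MvPolynomial σ k ⧸ I) (FF I)).comp (Ideal.Quotient.mkₐ k I)

/-- Coordinates of the generic point. -/
def xi (I : Ideal (MvPolynomial σ k)) (i : σ) : FF I := ev I (X i)

/-- The `k`-space of the images of the polynomials of total degree at most `t`. -/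
def V (I : Ideal (MvPolynomial σ k)) (t : ℕ) : Submodule k (FF I) :=
  (restrictTotalDegree σ k t).map (ev I).toLinearMap

/-- Hilbert function. -/
def hf (I : Ideal (MvPolynomial σ k)) (t : ℕ) : ℕ := Module.finrank k (V I t)

/-- Dimension of `V(I)`: transcendence degree of the coordinate ring. -/
def dim (I : Ideal (MvPolynomial σ k)) : ℕ :=
  (Algebra.trdeg k (MvPolynomial σ k ⧸ I)).toNat

/-- The linear form with coefficient vector `c`. -/
def lf {A : Type*} [CommRing A] (c : σ → A) : MvPolynomial σ A :=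
  ∑ i, C (c i) * X i

/-- Values of a tuple of linear forms at the generic point. -/
def yb (I : Ideal (MvPolynomial σ k)) {r : ℕ} (y : Fin r → σ → k) (i : Fin r) : FF I :=
  ev I (lf (y i))

/-- The field `k(ybar)`. -/
def KK (I : Ideal (MvPolynomial σ k)) [I.IsPrime] {r : ℕ} (y : Fin r → σ → k) :
    IntermediateField k (FF I) :=
  IntermediateField.adjoin k (Set.range (yb I y))

/-- The elements `ybar_i` as elements of `k(ybar)`. -/
def yk (I : Ideal (MvPolynomial σ k)) [I.IsPrime] {r : ℕ} (y : Fin r → σ → k)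
    (i : Fin r) : KK I y :=
  ⟨yb I y i, IntermediateField.subset_adjoin k _ ⟨i, rfl⟩⟩

/-- Graded Noether normalisation (GN tuples of linear forms). -/
structure GN (I : Ideal (MvPolynomial σ k)) [I.IsPrime] {r : ℕ} (y : Fin r → σ → k) :
    Prop where
  indep : AlgebraicIndependent k (yb I y)
  gen : ∃ (m : ℕ) (g : Fin m → MvPolynomial σ k) (d : Fin m → ℕ),
    (∀ j, (g j).totalDegree ≤ d j) ∧
    ∀ (t : ℕ) (F : MvPolynomial σ k), F.totalDegree ≤ t →
      ∃ a : Fin m → MvPolynomial (Fin r) k,
        (∀ j, a j = 0 ∨ (a j).totalDegree + d j ≤ t) ∧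
        ev I F = ∑ j, ev I (g j) * aeval (yb I y) (a j)

/-- Degree of `V(I)` (`0` if `I` is not prime). -/
def deg (I : Ideal (MvPolynomial σ k)) : ℕ :=
  sInf {d | ∃ (_ : I.IsPrime) (r : ℕ) (y : Fin r → σ → k),
    GN I y ∧ d = Module.finrank (KK I y) (FF I)}

/-- Rank over `k(ybar)` of the polynomials of degree at most `t`. -/
def nu (I : Ideal (MvPolynomial σ k)) [I.IsPrime] {r : ℕ} (y : Fin r → σ → k) (t : ℕ) :
    ℕ :=
  Module.finrank (KK I y) (Submodule.span (KK I y) (V I t : Set (FF I)))

/-- The gradient of `f` at the generic point. -/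
def grad (I : Ideal (MvPolynomial σ k)) (f : MvPolynomial σ k) : σ → FF I :=
  fun j => ev I (pderiv j f)

/-- Nondegenerate equations: `card σ - dim I` elements of `I` with independent gradients at the
generic point. -/
structure NonDeg (I : Ideal (MvPolynomial σ k)) {m : ℕ}
    (f : Fin m → MvPolynomial σ k) : Prop where
  mem : ∀ a, f a ∈ I
  card : m + dim I = Fintype.card σ
  indep : LinearIndependent (FF I) (fun a => grad I (f a))

/-- `I` has nondegenerate equations of degree at most `Λ`. -/
def HasEq (I : Ideal (MvPolynomial σ k)) (Λ : ℕ) : Prop :=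
  ∃ (m : ℕ) (f : Fin m → MvPolynomial σ k), NonDeg I f ∧ ∀ a, (f a).totalDegree ≤ Λ

/-- Jacobian determinant of a family of polynomials indexed by `σ`. -/
def jac {A : Type*} [CommRing A] (F : σ → MvPolynomial σ A) : MvPolynomial σ A :=
  (Matrix.of fun i j => pderiv j (F i)).det

/-- The Jacobian determinant `J(f,y)` of `m` equations and `r` linear forms, `m + r = card σ`
(`e` fixes the order of the rows). -/
def Jfy {A : Type*} [CommRing A] {m r : ℕ} (e : σ ≃ Fin m ⊕ Fin r) (f : Fin m → MvPolynomial σ A)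
    (y : Fin r → σ → A) : MvPolynomial σ A :=
  jac (fun s => Sum.elim f (fun i => lf (y i)) (e s))

/-- `Jac_j(g)`: the same determinant with the linear form `y_j` replaced by `g`. -/
def Jrep {A : Type*} [CommRing A] {m r : ℕ} (e : σ ≃ Fin m ⊕ Fin r)
    (f : Fin m → MvPolynomial σ A) (y : Fin r → σ → A) (j : Fin r) (g : MvPolynomial σ A) :
    MvPolynomial σ A :=
  jac (fun s => Sum.elim f (Function.update (fun i => lf (y i)) j g) (e s))

/-! ### Points (sections 3 to 9) -/

/-- An integral point `(P_0; P_s)`. -/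
abbrev Pt (σ : Type) : Type := ℤ × (σ → ℤ)

/-- Affine coordinates of an integral point. -/
def aff (P : Pt σ) : σ → ℚ := fun i => (P.2 i : ℚ) / (P.1 : ℚ)

/-- The point `aff P` lies on `V(I)`. -/
def OnV (I : Ideal (MvPolynomial σ ℚ)) (P : Pt σ) : Prop :=
  ∀ g ∈ I, eval (aff P) g = 0

/-- Sup norm at most `B`. -/
def Ht (P : Pt σ) (B : ℕ) : Prop := |P.1| ≤ (B : ℤ) ∧ ∀ i, |P.2 i| ≤ (B : ℤ)

/-- Homogenised value `g^t(P) = P_0^t g(aff P)` of an integral polynomial (if `deg g ≤ t`). -/
def hv (t : ℕ) (g : MvPolynomial σ ℤ) (P : Pt σ) : ℤ :=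
  ∑ m ∈ g.support, g.coeff m * (P.1 ^ (t - m.degree) * ∏ i : σ, P.2 i ^ m i)

/-- Sum of the absolute values of the coefficients. -/
def l1 (g : MvPolynomial σ ℤ) : ℤ := ∑ m ∈ g.support, |g.coeff m|

/-- `(r+1)/(r δ^{1/r})`. -/
def theta (r : ℕ) (δ : ℕ) : ℝ := ((r : ℝ) + 1) / ((r : ℝ) * (δ : ℝ) ^ (1 / (r : ℝ)))

end

end Pool.H76.NN
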