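import Pool.Agent.H76.NN.GNc

/-!
MODULE AsyA (about 150 lines).  Paper 1.3 (asymptotics for a GN tuple) and 1.4 (any tuple).
`lower`: `b_1..b_m` in `V_c`, linearly independent over `k(ybar)`, `ybar` algebraically independent: the elements
`b_i ybar^α`, `|α| ≤ t`, are linearly independent over `k` and lie in `V_{t+c}` (number of `α`: `(t+r).choose r`).
`upper`: multiply `V_t` by `q(ybar)` (GN.basis): the image lies in `∑ (polynomials of degree ≤ t+c in ybar) b_i`.
-/

set_option autoImplicit false

open MvPolynomial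

namespace Pool.H76.NN

variable {k : Type} [Field k] [CharZero k] {σ : Type} [Fintype σ] [DecidableEq σ] {r : ℕ}

/-- Polynomials of degree at most `t` in `ybar` lie in `V_t`. -/
theorem aeval_yb_mem_V (I : Ideal (MvPolynomial σ k)) (y : Fin r → σ → k) {t : ℕ}
    (a : MvPolynomial (Fin r) k) (ha : a.totalDegree ≤ t) : aeval (yb I y) a ∈ V I t := by
  rw [aeval_def, eval₂_eq']
  refine Submodule.sum_mem _ fun d hd => ?_
  have hmon : ∀ (s : Finset (Fin r)), ∏ i ∈ s, yb I y i ^ d i ∈ V I (∑ i ∈ s, d i) := by
    intro s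
    induction s using Finset.induction_on with
    | empty => simpa using one_mem_V I 0
    | insert i s hi ih =>
      rw [Finset.prod_insert hi, Finset.sum_insert hi]
      refine mul_mem_V I ?_ ih
      have hp : ∀ n : ℕ, yb I y i ^ n ∈ V I n := by
        intro n
        induction n with
        | zero => simpa using one_mem_V I 0
        | succ n ihn =>
          rw [pow_succ]
          exact mul_mem_V I ihn (yb_mem_V I y i)
      exact hp (d i)
  have hle : ∑ i, d i ≤ t := by
    refine le_trans ?_ ha
    have := le_totalDegree hd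
    rwa [Finsupp.sum_fintype _ _ (fun _ => rfl)] at this
  have h1 := V_mono I hle (hmon Finset.univ)
  rw [← Algebra.smul_def]
  exact Submodule.smul_mem _ _ h1

/-- The `k`-linear map `(a_i) ↦ ∑ a_i(ybar) b_i` on polynomials of degree at most `t`. -/
noncomputable def asyMap (I : Ideal (MvPolynomial σ k)) (y : Fin r → σ → k) {m : ℕ}
    (b : Fin m → FF I) (t : ℕ) :
    (Fin m → restrictTotalDegree (Fin r) k t) →ₗ[k] FF I :=
  ∑ i, (LinearMap.mulRight k (b i)) ∘ₗ (aeval (yb I y) : MvPolynomial (Fin r) k →ₐ[k] FF I).toLinearMap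
    ∘ₗ (restrictTotalDegree (Fin r) k t).subtype ∘ₗ LinearMap.proj i

theorem asyMap_apply (I : Ideal (MvPolynomial σ k)) (y : Fin r → σ → k) {m : ℕ}
    (b : Fin m → FF I) (t : ℕ) (a : Fin m → restrictTotalDegree (Fin r) k t) :
    asyMap I y b t a = ∑ i, aeval (yb I y) (a i : MvPolynomial (Fin r) k) * b i := by
  simp [asyMap]

theorem finrank_asyDom (k : Type) [Field k] (m r t : ℕ) :
    Module.finrank k (Fin m → restrictTotalDegree (Fin r) k t) = m * (t + r).choose r := by
  have h := finrank_restrict k (Fin r) t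
  rw [Fintype.card_fin] at h
  rw [Module.finrank_pi_fintype]
  simp [h]

theorem aeval_mem_KK (I : Ideal (MvPolynomial σ k)) [I.IsPrime] (y : Fin r → σ → k)
    (a : MvPolynomial (Fin r) k) : aeval (yb I y) a ∈ KK I y := by
  have h : aeval (yb I y) a = algebraMap (KK I y) (FF I) (aeval (yk I y) a) := by
    rw [← aeval_algebraMap_apply]
    rfl
  rw [h]
  exact (aeval (yk I y) a).2

/-- Paper 1.4. -/
theorem lower (I : Ideal (MvPolynomial σ k)) [I.IsPrime] (y : Fin r → σ → k)
    (hy : AlgebraicIndependent k (yb I y)) {m c : ℕ} (b : Fin m → FF I) (hb : ∀ i, b i ∈ V I c)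
    (hli : LinearIndependent (KK I y) b) (t : ℕ) : m * (t + r).choose r ≤ hf I (t + c) := by
  have hfin := V_finite I (t + c)
  have hran : ∀ a, asyMap I y b t a ∈ V I (t + c) := by
    intro a
    rw [asyMap_apply]
    refine Submodule.sum_mem _ fun i _ => mul_mem_V I (aeval_yb_mem_V I y _ ?_) (hb i)
    have := (a i).2
    rwa [mem_restrictTotalDegree] at this
  have hinj : Function.Injective ((asyMap I y b t).codRestrict (V I (t + c)) hran) := by
    rw [← LinearMap.ker_eq_bot, LinearMap.ker_codRestrict, LinearMap.ker_eq_bot']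
    intro a ha
    rw [asyMap_apply] at ha
    have h1 : ∑ i, (⟨aeval (yb I y) (a i : MvPolynomial (Fin r) k), aeval_mem_KK I y _⟩ : KK I y) • b i
        = 0 := by
      rw [← ha]
      rfl
    have h2 := Fintype.linearIndependent_iff.mp hli _ h1
    funext i
    have h3 : aeval (yb I y) (a i : MvPolynomial (Fin r) k) = 0 := by
      have := h2 i
      exact congrArg Subtype.val this
    have h4 : (a i : MvPolynomial (Fin r) k) = 0 := by
      apply hy
      rw [h3, map_zero]
    exact Subtype.ext h4
  have h := LinearMap.finrank_le_finrank_of_injective hinj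
  rw [finrank_asyDom] at h
  exact h

/-- Paper 1.3, upper bound. -/
theorem GN.upper {I : Ideal (MvPolynomial σ k)} [I.IsPrime] {y : Fin r → σ → k}
    (h : GN I y) : ∃ c : ℕ, ∀ t : ℕ,
      hf I t ≤ Module.finrank (KK I y) (FF I) * (t + c + r).choose r := by
  obtain ⟨c, b, q, hb, hq, hbas⟩ := h.basis
  refine ⟨c, fun t => ?_⟩
  have hq0 : aeval (yb I y) q ≠ 0 := by
    intro h0
    apply hq
    apply h.indep
    rw [h0, map_zero]
  set L : FF I →ₗ[k] FF I := LinearMap.mulLeft k (aeval (yb I y) q) with hL
  have hLi : Function.Injective L := mul_right_injective₀ hq0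
  have hsub : (V I t).map L ≤ LinearMap.range (asyMap I y (fun i => b i) (t + c)) := by
    rintro _ ⟨x, hx, rfl⟩
    obtain ⟨F, hF, rfl⟩ := (mem_V I t x).mp hx
    obtain ⟨a, ha, hab⟩ := hbas t F hF
    refine ⟨fun i => ⟨a i, by rw [mem_restrictTotalDegree]; exact ha i⟩, ?_⟩
    rw [asyMap_apply]
    exact hab.symm
  have hfd : FiniteDimensional k (Fin (Module.finrank (KK I y) (FF I)) →
      restrictTotalDegree (Fin r) k (t + c)) := by
    have hf1 : Module.Finite k (restrictTotalDegree (Fin r) k (t + c)) := by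
      apply Module.finite_of_finrank_pos
      rw [finrank_restrict]
      exact Nat.choose_pos (by omega)
    infer_instance
  have h1 : Module.finrank k ((V I t).map L) = hf I t := by
    unfold hf
    exact (Submodule.equivMapOfInjective L hLi (V I t)).finrank_eq.symm
  rw [← h1]
  refine le_trans (Submodule.finrank_mono hsub) ?_
  refine le_trans (LinearMap.finrank_range_le _) ?_
  rw [finrank_asyDom]

/-- Paper 1.3, lower bound. -/
theorem GN.lower {I : Ideal (MvPolynomial σ k)} [I.IsPrime] {y : Fin r → σ → k}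
    (h : GN I y) : ∃ c : ℕ, ∀ t : ℕ,
      Module.finrank (KK I y) (FF I) * (t + r).choose r ≤ hf I (t + c) := by
  obtain ⟨c, b, q, hb, hq, hbas⟩ := h.basis
  exact ⟨c, fun t => Pool.H76.NN.lower I y h.indep (fun i => b i) hb b.linearIndependent t⟩

end Pool.H76.NN
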