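import Pool.Agent.H76.NN.GNa

/-!
MODULE GNb (about 120 lines).  Existence of graded Noether normalisation (paper 1.1), from `GNa`.
`exists_GNw`: induction on `N`.  `N = 0`: `r = 0`, `m = 1`, `g = 1`, `d = 0`.  Step: if `w` is algebraically independent
take `z = w`, `g = 1`.  Otherwise `reduce_step` and the induction hypothesis for `w'`: the generators are
`X_last^j * (g'_i with the variables X_i replaced by X_i - c_i X_last)`, degrees `d'_i + j`.
`exists_GN` is the case `w = xi I` (indexed by `Fin (card σ)` through `Fintype.equivFin`; the linear combinations are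
`yb I y`).
-/

set_option autoImplicit false

open MvPolynomial

namespace Pool.H76.NN

variable {k : Type} [Field k] [CharZero k]

private theorem totalDegree_aeval_lin {σ τ : Type*} {R : Type*} [CommRing R]
    (f : σ → MvPolynomial τ R) (hf : ∀ i, (f i).totalDegree ≤ 1) (p : MvPolynomial σ R) :
    (aeval f p).totalDegree ≤ p.totalDegree := by
  rw [aeval_def, eval₂_eq]
  refine totalDegree_finsetSum_le fun m hm => ?_
  refine (totalDegree_mul _ _).trans ?_
  rw [algebraMap_eq, totalDegree_C, zero_add]
  refine (totalDegree_finsetProd _ _).trans ?_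
  refine le_trans ?_ (le_totalDegree hm)
  refine Finset.sum_le_sum fun i _ => ?_
  calc (f i ^ m i).totalDegree ≤ m i * (f i).totalDegree := totalDegree_pow _ _
    _ ≤ m i * 1 := Nat.mul_le_mul_left _ (hf i)
    _ = m i := mul_one _

omit [CharZero k] in
private theorem GNw_indep {L : Type} [Field L] [Algebra k L] {N : ℕ} (w : Fin N → L)
    (hw : AlgebraicIndependent k w) :
    ∃ (r : ℕ) (c : Fin r → Fin N → k),
      AlgebraicIndependent k (fun i => ∑ j, algebraMap k L (c i j) * w j) ∧
      ∃ (m : ℕ) (g : Fin m → MvPolynomial (Fin N) k) (d : Fin m → ℕ),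
        (∀ j, (g j).totalDegree ≤ d j) ∧
        ∀ (t : ℕ) (F : MvPolynomial (Fin N) k), F.totalDegree ≤ t →
          ∃ a : Fin m → MvPolynomial (Fin r) k,
            (∀ j, a j = 0 ∨ (a j).totalDegree + d j ≤ t) ∧
            aeval w F = ∑ j, aeval w (g j) *
              aeval (fun i => ∑ j, algebraMap k L (c i j) * w j) (a j) := by
  have key : (fun i => ∑ j, algebraMap k L ((Pi.single i (1 : k) : Fin N → k) j) * w j) = w := by
    funext i
    rw [Finset.sum_eq_single i]
    · rw [Pi.single_eq_same, map_one, one_mul]
    · intro j _ hj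
      rw [Pi.single_eq_of_ne hj, map_zero, zero_mul]
    · intro h
      exact absurd (Finset.mem_univ i) h
  refine ⟨N, fun i => Pi.single i 1, ?_, 1, fun _ => 1, fun _ => 0, fun _ => ?_, ?_⟩
  · rw [key]
    exact hw
  · rw [totalDegree_one]
  · intro t F hF
    refine ⟨fun _ => F, fun _ => Or.inr (by rw [add_zero]; exact hF), ?_⟩
    rw [key, Fin.sum_univ_one, map_one, one_mul]

theorem exists_GNw {L : Type} [Field L] [Algebra k L] {N : ℕ} (w : Fin N → L) :
    ∃ (r : ℕ) (c : Fin r → Fin N → k),
      AlgebraicIndependent k (fun i => ∑ j, algebraMap k L (c i j) * w j) ∧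
      ∃ (m : ℕ) (g : Fin m → MvPolynomial (Fin N) k) (d : Fin m → ℕ),
        (∀ j, (g j).totalDegree ≤ d j) ∧
        ∀ (t : ℕ) (F : MvPolynomial (Fin N) k), F.totalDegree ≤ t →
          ∃ a : Fin m → MvPolynomial (Fin r) k,
            (∀ j, a j = 0 ∨ (a j).totalDegree + d j ≤ t) ∧
            aeval w F = ∑ j, aeval w (g j) *
              aeval (fun i => ∑ j, algebraMap k L (c i j) * w j) (a j) := by
  classical
  induction N with
  | zero => exact GNw_indep w algebraicIndependent_empty_type
  | succ N ih =>
    by_cases hw : AlgebraicIndependent k w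
    · exact GNw_indep w hw
    obtain ⟨F₀, hF₀, hF0⟩ : ∃ F : MvPolynomial (Fin (N + 1)) k, aeval w F = 0 ∧ F ≠ 0 := by
      by_contra hc
      refine hw ((injective_iff_map_eq_zero _).2 fun F h => ?_)
      by_contra h0
      exact hc ⟨F, h, h0⟩
    obtain ⟨c, d, -, -, H⟩ := reduce_step w F₀ hF0 hF₀
    obtain ⟨r, c', hind, m, g, dg, hg, G⟩ :=
      ih (fun i : Fin N => w i.castSucc - algebraMap k L (c i.castSucc) * w (Fin.last N))
    have key : (fun i => ∑ j : Fin (N + 1), algebraMap k L
          ((Fin.snoc (α := fun _ => k) (c' i) (-∑ j, c' i j * c j.castSucc) : Fin (N + 1) → k) j)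
            * w j) =
        fun i => ∑ j : Fin N, algebraMap k L (c' i j) *
          (w j.castSucc - algebraMap k L (c j.castSucc) * w (Fin.last N)) := by
      funext i
      rw [Fin.sum_univ_castSucc]
      simp only [Fin.snoc_castSucc, Fin.snoc_last]
      rw [map_neg, map_sum]
      simp only [mul_sub, map_mul, Finset.sum_sub_distrib]
      rw [neg_mul, Finset.sum_mul, ← sub_eq_add_neg]
      congr 1
      refine Finset.sum_congr rfl fun j _ => ?_
      ring
    set lin : Fin N → MvPolynomial (Fin (N + 1)) k := fun i =>
      X i.castSucc - C (c i.castSucc) * X (Fin.last N) with hlin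
    have hlin1 : ∀ i, (lin i).totalDegree ≤ 1 := by
      intro i
      rw [hlin]
      refine (totalDegree_sub _ _).trans (max_le ?_ ?_)
      · rw [totalDegree_X]
      · refine (totalDegree_mul _ _).trans ?_
        rw [totalDegree_C, totalDegree_X, zero_add]
    have hlinw : ∀ p : MvPolynomial (Fin N) k, aeval w (aeval lin p) =
        aeval (fun i : Fin N => w i.castSucc - algebraMap k L (c i.castSucc) * w (Fin.last N))
          p := by
      intro p
      rw [← AlgHom.comp_apply]
      congr 1
      refine MvPolynomial.algHom_ext fun i => ?_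
      rw [AlgHom.comp_apply, aeval_X, aeval_X, hlin, map_sub, map_mul, aeval_X, aeval_X,
        aeval_C]
    refine ⟨r, fun i => Fin.snoc (α := fun _ => k) (c' i) (-∑ j, c' i j * c j.castSucc), ?_,
      m * d, fun q => X (Fin.last N) ^ ((finProdFinEquiv.symm q).2 : ℕ) *
        aeval lin (g (finProdFinEquiv.symm q).1),
      fun q => dg (finProdFinEquiv.symm q).1 + ((finProdFinEquiv.symm q).2 : ℕ), ?_, ?_⟩
    · rw [key]
      exact hind
    · intro q
      refine (totalDegree_mul _ _).trans ?_
      rw [totalDegree_X_pow, add_comm]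
      exact Nat.add_le_add_right ((totalDegree_aeval_lin lin hlin1 _).trans (hg _)) _
    · intro t F hF
      obtain ⟨b, hb, hbF⟩ := H t F hF
      have hG : ∀ j : Fin d, ∃ a : Fin m → MvPolynomial (Fin r) k,
          (∀ l, a l = 0 ∨ (a l).totalDegree + (dg l + (j : ℕ)) ≤ t) ∧
          aeval (fun i : Fin N => w i.castSucc - algebraMap k L (c i.castSucc) * w (Fin.last N))
            (b j) = ∑ l, aeval (fun i : Fin N => w i.castSucc -
              algebraMap k L (c i.castSucc) * w (Fin.last N)) (g l) *
              aeval (fun i => ∑ j : Fin N, algebraMap k L (c' i j) *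
                (w j.castSucc - algebraMap k L (c j.castSucc) * w (Fin.last N))) (a l) := by
        intro j
        rcases hb j with h0 | h0
        · refine ⟨fun _ => 0, fun _ => Or.inl rfl, ?_⟩
          rw [h0, map_zero]
          refine (Finset.sum_eq_zero fun l _ => ?_).symm
          rw [map_zero, mul_zero]
        · obtain ⟨a, ha, haF⟩ := G (t - j) (b j) (by omega)
          refine ⟨a, fun l => ?_, haF⟩
          rcases ha l with h1 | h1
          · exact Or.inl h1
          · right
            omega
      choose a ha haF using hG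
      refine ⟨fun q => a (finProdFinEquiv.symm q).2 (finProdFinEquiv.symm q).1, fun q => ?_, ?_⟩
      · exact ha _ _
      · rw [key, hbF]
        rw [← (finProdFinEquiv (m := m) (n := d)).sum_comp, Fintype.sum_prod_type,
          Finset.sum_comm]
        refine Finset.sum_congr rfl fun j _ => ?_
        rw [haF j, Finset.mul_sum]
        refine Finset.sum_congr rfl fun l _ => ?_
        simp only [Equiv.symm_apply_apply]
        rw [map_mul, map_pow, aeval_X, hlinw, mul_assoc]

/-- Paper 1.1. -/
theorem exists_GN {σ : Type} [Fintype σ] [DecidableEq σ] (I : Ideal (MvPolynomial σ k))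
    [I.IsPrime] : ∃ (r : ℕ) (y : Fin r → σ → k), GN I y := by
  classical
  have hev : ∀ F : MvPolynomial σ k, ev I F = aeval (xi I) F := by
    intro F
    congr 1
    refine MvPolynomial.algHom_ext fun i => ?_
    rw [aeval_X]
    rfl
  set e : σ ≃ Fin (Fintype.card σ) := Fintype.equivFin σ with he
  obtain ⟨r, c, hind, m, g, d, hg, H⟩ := exists_GNw (k := k) (fun j => xi I (e.symm j))
  have key : (fun i => ∑ j, algebraMap k (FF I) (c i j) * xi I (e.symm j)) =
      yb I (fun i s => c i (e s)) := by
    funext i
    unfold yb lf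
    rw [map_sum, ← e.symm.sum_comp]
    refine Finset.sum_congr rfl fun j _ => ?_
    rw [map_mul, hev, hev, aeval_C, aeval_X]
    simp only [Equiv.apply_symm_apply]
  have hren : ∀ p : MvPolynomial (Fin (Fintype.card σ)) k,
      aeval (xi I) (rename e.symm p) = aeval (fun j => xi I (e.symm j)) p := by
    intro p
    rw [aeval_rename]
    rfl
  rw [key] at hind H
  refine ⟨r, fun i s => c i (e s), hind, m, fun j => rename e.symm (g j), d, fun j => ?_, ?_⟩
  · exact (totalDegree_rename_le _ _).trans (hg j)
  · intro t F hF
    obtain ⟨a, ha, haF⟩ := H t (rename e F) ((totalDegree_rename_le _ _).trans hF)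
    refine ⟨a, ha, ?_⟩
    have h1 : ev I F = aeval (fun j => xi I (e.symm j)) (rename e F) := by
      rw [hev, aeval_rename]
      congr 2
      funext i
      rw [Function.comp_apply, Equiv.symm_apply_apply]
    rw [h1, haF]
    refine Finset.sum_congr rfl fun j _ => ?_
    rw [hev, hren]

end Pool.H76.NN
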