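import Pool.Agent.H76.NN.AsyA
import Pool.Agent.H76.NN.GNb
import Pool.Agent.H76.NN.ChA

/-!
MODULE AsyB (about 120 lines).  Paper 1.3, 1.4: `deg I` is the degree over `k(ybar)` for every GN tuple.
Use `ChA.choose_compare` (`a * C(t+r,r) ≤ b * C(t+c+r,r)` for all `t` implies `a ≤ b`).
-/

set_option autoImplicit false

open MvPolynomial

namespace Pool.H76.NN

variable {k : Type} [Field k] [CharZero k] {σ : Type} [Fintype σ] [DecidableEq σ] {r : ℕ}

theorem GN.finrank_le {I : Ideal (MvPolynomial σ k)} [I.IsPrime] {r' : ℕ} {y : Fin r → σ → k}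
    {y' : Fin r' → σ → k} (h : GN I y) (h' : GN I y') :
    Module.finrank (KK I y) (FF I) ≤ Module.finrank (KK I y') (FF I) := by
  obtain rfl : r = r' := h.card.trans h'.card.symm
  obtain ⟨c, hc⟩ := h.lower
  obtain ⟨c', hc'⟩ := h'.upper
  refine choose_compare (c := c + c') (r := r) fun t => ?_
  have h1 := (hc t).trans (hc' (t + c))
  rw [show t + (c + c') + r = t + c + c' + r by ring]
  exact h1

theorem GN.deg_eq {I : Ideal (MvPolynomial σ k)} [I.IsPrime] {y : Fin r → σ → k}
    (h : GN I y) : deg I = Module.finrank (KK I y) (FF I) := by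
  have hne : {d | ∃ (_ : I.IsPrime) (r : ℕ) (y : Fin r → σ → k),
      GN I y ∧ d = Module.finrank (KK I y) (FF I)}.Nonempty :=
    ⟨_, inferInstance, r, y, h, rfl⟩
  obtain ⟨_, r', y', h', hd⟩ := Nat.sInf_mem hne
  have h1 : deg I = Module.finrank (KK I y') (FF I) := hd
  rw [h1]
  exact le_antisymm (h'.finrank_le h) (h.finrank_le h')

theorem deg_pos (I : Ideal (MvPolynomial σ k)) [I.IsPrime] : 0 < deg I := by
  obtain ⟨r, y, h⟩ := exists_GN I
  rw [h.deg_eq]
  have := h.finite
  exact Module.finrank_pos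

/-- Paper 1.3. -/
theorem hf_asymp (I : Ideal (MvPolynomial σ k)) [I.IsPrime] :
    ∃ c : ℕ, ∀ t : ℕ, deg I * (t + dim I).choose (dim I) ≤ hf I (t + c) ∧
      hf I t ≤ deg I * (t + c + dim I).choose (dim I) := by
  obtain ⟨r, y, h⟩ := exists_GN I
  have hr := h.card
  obtain ⟨c, hc⟩ := h.lower
  obtain ⟨c', hc'⟩ := h.upper
  rw [h.deg_eq, ← hr]
  refine ⟨max c c', fun t => ⟨?_, ?_⟩⟩
  · exact (hc t).trans (hf_mono I (Nat.add_le_add_left (le_max_left _ _) _))
  · refine (hc' t).trans (Nat.mul_le_mul_left _ (Nat.choose_le_choose _ ?_))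
    have := le_max_right c c'
    omega

/-- Paper 1.4. -/
theorem le_deg (I : Ideal (MvPolynomial σ k)) [I.IsPrime] (y : Fin r → σ → k)
    (hy : AlgebraicIndependent k (yb I y)) (hr : r = dim I) {m c : ℕ} (b : Fin m → FF I)
    (hb : ∀ i, b i ∈ V I c) (hli : LinearIndependent (KK I y) b) : m ≤ deg I := by
  obtain ⟨c', hc'⟩ := hf_asymp I
  refine choose_compare (c := c + c') (r := r) fun t => ?_
  have h1 := (lower I y hy b hb hli t).trans (hc' (t + c)).2
  rw [← hr] at h1
  rw [show t + (c + c') + r = t + c + c' + r by ring]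
  exact h1

theorem span_range_ev (I : Ideal (MvPolynomial σ k)) [I.IsPrime] (y : Fin r → σ → k)
    [FiniteDimensional (KK I y) (FF I)] :
    Submodule.span (KK I y) (Set.range (ev I)) = ⊤ := by
  have h1 : IntermediateField.adjoin (KK I y) (Set.range (xi I)) = ⊤ := by
    rw [eq_top_iff]
    intro x _
    have hx : x ∈ IntermediateField.adjoin k (Set.range (xi I)) := by
      rw [adjoin_xi I]
      exact IntermediateField.mem_top
    have h2 : IntermediateField.adjoin k (Set.range (xi I)) ≤
        (IntermediateField.adjoin (KK I y) (Set.range (xi I))).restrictScalars k := by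
      rw [IntermediateField.adjoin_le_iff]
      intro z hz
      exact IntermediateField.subset_adjoin (KK I y) _ hz
    exact h2 hx
  have h2 : Algebra.adjoin (KK I y) (Set.range (xi I)) = ⊤ := by
    have h3 := IntermediateField.adjoin_toSubalgebra_of_isAlgebraic (F := KK I y) (E := FF I)
      (S := Set.range (xi I)) (fun x _ => Algebra.IsAlgebraic.isAlgebraic x)
    rw [← h3, h1]
    rfl
  have h3 : (⊤ : Submodule (KK I y) (FF I)) =
      Submodule.span (KK I y) (Submonoid.closure (Set.range (xi I)) : Set (FF I)) := by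
    rw [← Algebra.adjoin_eq_span, h2]
    rfl
  rw [eq_top_iff, h3, Submodule.span_le]
  intro x hx
  apply Submodule.subset_span
  have h4 : Submonoid.closure (Set.range (xi I)) ≤ (ev I).range.toSubmonoid := by
    rw [Submonoid.closure_le]
    rintro _ ⟨i, rfl⟩
    exact ⟨X i, rfl⟩
  exact h4 hx

theorem finrank_le_deg (I : Ideal (MvPolynomial σ k)) [I.IsPrime] (y : Fin r → σ → k)
    (hy : AlgebraicIndependent k (yb I y)) (hr : r = dim I) :
    Module.finrank (KK I y) (FF I) ≤ deg I := by
  have : FiniteDimensional (KK I y) (FF I) := finite_over_adjoin I (yb I y) hy hr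
  obtain ⟨s, hs, hspan, hli⟩ := exists_linearIndependent (KK I y) (Set.range (ev I))
  rw [span_range_ev I y] at hspan
  let B : Module.Basis s (KK I y) (FF I) := Module.Basis.mk hli (by
    rw [Subtype.range_coe_subtype, Set.ofPred_mem_eq, hspan])
  have : Finite s := Module.Finite.finite_basis B
  have : Fintype s := Fintype.ofFinite s
  have hcard : Fintype.card s = Module.finrank (KK I y) (FF I) :=
    (Module.finrank_eq_card_basis B).symm
  let e : Fin (Module.finrank (KK I y) (FF I)) ≃ s :=
    (Fintype.equivFinOfCardEq hcard).symm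
  have hF : ∀ i, ∃ F : MvPolynomial σ k, ev I F = (e i : FF I) := fun i => hs (e i).2
  choose F hF using hF
  refine le_deg I y hy hr (c := ∑ i, (F i).totalDegree) (fun i => (e i : FF I)) ?_ ?_
  · intro i
    rw [mem_V]
    exact ⟨F i, Finset.single_le_sum (f := fun i => (F i).totalDegree)
      (fun _ _ => Nat.zero_le _) (Finset.mem_univ i), hF i⟩
  · exact hli.comp e e.injective

theorem deg_bot (k : Type) [Field k] [CharZero k] (σ : Type) [Fintype σ] [DecidableEq σ] :
    deg (⊥ : Ideal (MvPolynomial σ k)) = 1 := by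
  have : (⊥ : Ideal (MvPolynomial σ k)).IsPrime := Ideal.isPrime_bot
  have hhf : ∀ t, hf (⊥ : Ideal (MvPolynomial σ k)) t =
      (t + Fintype.card σ).choose (Fintype.card σ) := by
    intro t
    have h1 := hf_add (⊥ : Ideal (MvPolynomial σ k)) t
    have h2 : (restrictTotalDegree σ k t ⊓ ((⊥ : Ideal (MvPolynomial σ k)).restrictScalars k) :
        Submodule k (MvPolynomial σ k)) = ⊥ := by
      rw [eq_bot_iff]
      rintro x ⟨_, hx⟩
      exact hx
    rw [h2, finrank_bot, add_zero] at h1
    exact h1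
  obtain ⟨c, hc⟩ := hf_asymp (⊥ : Ideal (MvPolynomial σ k))
  rw [dim_bot] at hc
  apply le_antisymm
  · refine choose_compare (c := c) (r := Fintype.card σ) fun t => ?_
    have h1 := (hc t).1
    rw [hhf] at h1
    rw [one_mul]
    exact h1
  · refine choose_compare (c := c) (r := Fintype.card σ) fun t => ?_
    have h1 := (hc t).2
    rw [hhf] at h1
    rw [one_mul]
    exact h1

/-- The dimension is determined by the growth of `hf`: used to recognise dimensions. -/
theorem dim_le_of_growth (I : Ideal (MvPolynomial σ k)) [I.IsPrime] {C s : ℕ}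
    (h : ∀ t : ℕ, hf I t ≤ C * (t + 1) ^ s) : dim I ≤ s := by
  obtain ⟨c, hc⟩ := hf_asymp I
  refine choose_compare_pow (deg_pos I) (C := C * (c + 1) ^ s) fun t => ?_
  refine ((hc t).1.trans (h (t + c))).trans ?_
  rw [mul_assoc, ← mul_pow]
  refine Nat.mul_le_mul_left _ (Nat.pow_le_pow_left ?_ _)
  nlinarith [Nat.zero_le (c * t)]

end Pool.H76.NN
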