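import Pool.Agent.H76.NN.Basic
import Pool.Agent.H76.NN.Trd

/-!
MODULE BezA (about 150 lines).  Paper 1.11, first half.  `S` a finite set of different primes of the same dimension
containing `I` and `g`.  By `dim_lt` no `q ∈ S`, `q ≠ p` is contained in `p`, so there is `a_p` in all `q ∈ S`, `q ≠ p`,
`a_p ∉ p` (product).  `c = max deg a_p`.  The map `∏_p V(p)_t → V(I)_T / ev(g) V(I)_{T-D}`, `T = t + c + D`,
`(F_p) ↦ ∑ a_p F_p` (well defined on the quotient of the polynomials of degree `≤ T` by their intersection with `∩ p`,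
which is a quotient of `V(I)_T / ev(g) V(I)_{T-D}`) is injective.  Count dimensions.
-/

set_option autoImplicit false

open MvPolynomial

namespace Pool.H76.NN

variable {k : Type} [Field k] [CharZero k] {σ : Type} [Fintype σ] [DecidableEq σ]

theorem bezout_ineq (I : Ideal (MvPolynomial σ k)) [I.IsPrime] (g : MvPolynomial σ k) (hg : g ∉ I)
    (D : ℕ) (hD : g.totalDegree ≤ D) (S : Finset (Ideal (MvPolynomial σ k))) (s : ℕ)
    (hS : ∀ p ∈ S, p.IsPrime ∧ I ≤ p ∧ g ∈ p ∧ dim p = s) :
    ∃ c : ℕ, ∀ t : ℕ, (∑ p ∈ S, hf p t) + hf I (t + c) ≤ hf I (t + c + D) := by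
  sorry

end Pool.H76.NN
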