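import Pool.Agent.H76.NN.AsyB

/-!
MODULE KrA (about 150 lines).  Paper 1.9, main part: a prime `p` minimal over `I + (g)` has dimension `dim I - 1`.
Proof.  `p/I` is a minimal prime of the principal ideal `(g)` of the noetherian domain `A/I`: height 1 (Mathlib
`Ideal.height_le_one_of_isPrincipal_of_mem_minimalPrimes`).  Take `y` GN for `I` (`exists_GN`), `S = k[ybar] ⊂ A/I` (subalgebra,
isomorphic to a polynomial ring by `h.indep`: integrally closed UFD), `A/I` integral over `S` (`GN.integral`).
Going down (Mathlib/RingTheory/Ideal/GoingDown, RingTheory/IntegralClosure/GoingDown) gives height of `q = p ∩ S` `≤ 1`; `q ≠ 0`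
(an element of `p`, nonzero, satisfies a monic equation over `S` with nonzero constant term).  So `q = (π)`, `π` irreducible.
`A/p` is integral over `S/(π)`, and trdeg `k[Y]/(π) = r - 1` (π involves some variable `Y_i`; the other variables are
algebraically independent modulo `π` and `Y_i` is algebraic over them).  Any other proof is welcome, e.g. without heights:
norms `N(g)` in `S`, `π | N(g)`, localisation at `(π)`.
-/

set_option autoImplicit false

open MvPolynomial

namespace Pool.H76.NN

variable {k : Type} [Field k] [CharZero k] {σ : Type} [Fintype σ] [DecidableEq σ]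

theorem dim_of_minimal (I p : Ideal (MvPolynomial σ k)) [I.IsPrime] [p.IsPrime] (hIp : I ≤ p)
    (g : MvPolynomial σ k) (hgI : g ∉ I) (hgp : g ∈ p)
    (hmin : ∀ q : Ideal (MvPolynomial σ k), q.IsPrime → I ≤ q → g ∈ q → q ≤ p → q = p) :
    dim p + 1 = dim I := by
  sorry

/-- Paper 1.9. -/
theorem krull (I m : Ideal (MvPolynomial σ k)) [I.IsPrime] [m.IsPrime] (hIm : I ≤ m)
    (g : MvPolynomial σ k) (hgI : g ∉ I) (hgm : g ∈ m) :
    ∃ p : Ideal (MvPolynomial σ k), p.IsPrime ∧ I ≤ p ∧ p ≤ m ∧ g ∈ p ∧ dim p + 1 = dim I := by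
  sorry

end Pool.H76.NN
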