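import Pool.Agent.H76.NN.BezA
import Pool.Agent.H76.NN.KrA

/-!
MODULE BezB (about 120 lines).  Paper 1.11 (Bezout).  From `bezout_ineq`: with `t = t_0 + l D`, `l < m`, telescoping
`∑_{l<m} ∑_p hf p (t_0 + l D) ≤ hf I (t_0 + c + m D)`; `hf_asymp` for the `p` (dimension `r-1`) and for `I`, and
`ChA.bezout_num`.  (`D = 0`: `g` is a nonzero constant, `S` is empty.)  Finiteness and the covering statement
follow with `krull`.
-/

set_option autoImplicit false

open MvPolynomial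

namespace Pool.H76.NN

variable {k : Type} [Field k] [CharZero k] {σ : Type} [Fintype σ] [DecidableEq σ]

theorem bezout (I : Ideal (MvPolynomial σ k)) [I.IsPrime] (g : MvPolynomial σ k) (hg : g ∉ I)
    (D : ℕ) (hD : g.totalDegree ≤ D) (S : Finset (Ideal (MvPolynomial σ k)))
    (hS : ∀ p ∈ S, p.IsPrime ∧ I ≤ p ∧ g ∈ p ∧ dim p + 1 = dim I) :
    ∑ p ∈ S, deg p ≤ D * deg I := by
  sorry

/-- Main form: finitely many primes `p ≥ I + (g)` of dimension `dim I - 1`, every prime containing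
`I` and `g` contains one of them. -/
theorem bezout_cover (I : Ideal (MvPolynomial σ k)) [I.IsPrime] (g : MvPolynomial σ k) (hg : g ∉ I)
    (D : ℕ) (hD : g.totalDegree ≤ D) :
    ∃ S : Finset (Ideal (MvPolynomial σ k)),
      (∀ p ∈ S, p.IsPrime ∧ I ≤ p ∧ g ∈ p ∧ dim p + 1 = dim I) ∧
      (∀ m : Ideal (MvPolynomial σ k), m.IsPrime → I ≤ m → g ∈ m → ∃ p ∈ S, p ≤ m) ∧
      ∑ p ∈ S, deg p ≤ D * deg I := by
  sorry

end Pool.H76.NN
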