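import Pool.Agent.H76.NN.BezB

/-!
MODULE BezPt (about 150 lines).  Ideals of rational points and linear spaces.
`ptI P` = kernel of the evaluation at `P` (maximal, dimension 0, degree 1).
`exists_linear`: the ideal generated by `card σ - r` of the `X_i - P_i`, or the kernel of the map
`MvPolynomial σ k → MvPolynomial (Fin r) k` sending some `r` of the variables to variables and the others to constants;
dimension `r`, degree 1 (the `r` variables are a GN tuple with one generator `g = 1`).
-/

set_option autoImplicit false

open MvPolynomial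

namespace Pool.H76.NN

variable {k : Type} [Field k] [CharZero k] {σ : Type} [Fintype σ] [DecidableEq σ]

/-- The ideal of a rational point. -/
noncomputable def ptI (P : σ → k) : Ideal (MvPolynomial σ k) := RingHom.ker (eval P)

theorem mem_ptI (P : σ → k) (g : MvPolynomial σ k) : g ∈ ptI P ↔ eval P g = 0 := by
  sorry

instance ptI_prime (P : σ → k) : (ptI P).IsPrime := by
  sorry

theorem ptI_injective : Function.Injective (ptI : (σ → k) → Ideal (MvPolynomial σ k)) := by
  sorry

theorem dim_ptI (P : σ → k) : dim (ptI P) = 0 := by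
  sorry

theorem deg_ptI (P : σ → k) : deg (ptI P) = 1 := by
  sorry

/-- A prime of dimension 0 vanishing at a rational point is the ideal of this point. -/
theorem eq_ptI_of_dim_zero (I : Ideal (MvPolynomial σ k)) [I.IsPrime] (h0 : dim I = 0) (P : σ → k)
    (hP : ∀ g ∈ I, eval P g = 0) : I = ptI P := by
  sorry

theorem exists_linear (P : σ → k) {r : ℕ} (hr : r ≤ Fintype.card σ) :
    ∃ I : Ideal (MvPolynomial σ k), I.IsPrime ∧ dim I = r ∧ deg I = 1 ∧
      ∀ g ∈ I, eval P g = 0 := by
  sorry

/-- Paper 1.11, corollary: points on curves. -/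
theorem card_points_le (I : Ideal (MvPolynomial σ k)) [I.IsPrime] (h1 : dim I = 1)
    (g : MvPolynomial σ k) (hg : g ∉ I) (D : ℕ) (hD : g.totalDegree ≤ D) (T : Finset (σ → k))
    (hT : ∀ P ∈ T, (∀ f ∈ I, eval P f = 0) ∧ eval P g = 0) : T.card ≤ D * deg I := by
  sorry

end Pool.H76.NN
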