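import Pool.Agent.H76.NN.NormA

/-!
MODULE CharP (about 150 lines).  Paper 1.7a: the characteristic polynomial of an element `φ ∈ V I 1` over `k(ybar)`.
Coefficients are polynomials in `ybar` (integrality, as in GN.norm_poly: for `u ∈ k^r` and `a ∈ k` the element `a + φ`..; or:
the coefficients of the characteristic polynomial of an integral element over an integrally closed domain).  For `u ∈ k^r`
`u.ybar - φ ∈ V I 1` and `N(u.ybar - φ) = Φ(ybar, u.ybar)` (`Matrix.eval_charpoly`), so the total degree of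
`Φ(Y, u.Y)` is `≤ δ` for all `u` (norm_deg with `w = 1`, `D = 1`).  The homogeneous part `Φ_d` of degree `d > δ` of
`Φ(Y,T)` satisfies `Φ_d(Y, u.Y) = 0` for all `u`, hence `Φ_d(η, T) = 0` for all `η ∈ k^r` with a nonzero coordinate
(`r ≥ 1`), so `Φ_d = 0`.  `r = 0`: trivial (all coefficients are constants).
-/

set_option autoImplicit false

open MvPolynomial

namespace Pool.H76.NN

variable {k : Type} [Field k] [CharZero k] {σ : Type} [Fintype σ] [DecidableEq σ] {r : ℕ}

/-- Paper 1.7a. -/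
theorem GN.exists_charpoly {I : Ideal (MvPolynomial σ k)} [I.IsPrime] {y : Fin r → σ → k}
    (h : GN I y) (φ : FF I) (hφ : φ ∈ V I 1) :
    ∃ Φ : Polynomial (MvPolynomial (Fin r) k), Φ.Monic ∧ Φ.natDegree = deg I ∧
      (∀ m, Φ.coeff m = 0 ∨ (Φ.coeff m).totalDegree + m ≤ deg I) ∧
      ∀ a : KK I y, Algebra.norm (KK I y) (algebraMap (KK I y) (FF I) a - φ) =
        (Φ.map (aeval (yk I y)).toRingHom).eval a := by
  sorry

/-- Consequence (Cayley-Hamilton): `Φ(ybar, φ) = 0`. -/
theorem GN.exists_annihilator {I : Ideal (MvPolynomial σ k)} [I.IsPrime] {y : Fin r → σ → k}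
    (h : GN I y) (φ : FF I) (hφ : φ ∈ V I 1) :
    ∃ Φ : Polynomial (MvPolynomial (Fin r) k), Φ.Monic ∧ Φ.natDegree = deg I ∧
      (∀ m, Φ.coeff m = 0 ∨ (Φ.coeff m).totalDegree + m ≤ deg I) ∧
      ∑ m ∈ Finset.range (deg I + 1), aeval (yb I y) (Φ.coeff m) * φ ^ m = 0 := by
  sorry

end Pool.H76.NN
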