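import Pool.Agent.H76.NN.AsyB

/-!
MODULE Conj (about 180 lines).  Conjugates of the generic point over `K = k(ybar)` (`y` of length `dim I`, independent, so
`FF I / K` is finite).  `Om I` = algebraic closure of `FF I`.  Embeddings `τ : FF I →ₐ[K] Om I`: finitely many, their number is
the degree (`AlgHom.card`), `xiC τ = (τ xi_s)_s` determines `τ` (`adjoin_xi`).
`conj_indep`: `K`-independent elements have `Om`-independent vectors of conjugates (extend to a basis; the matrix
`τ (b_i)` is invertible: `Algebra.discr_not_zero_of_basis`, or Dedekind independence of characters).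
`exists_dual`: `ν = nu I y E`: choose `F_1..F_ν` of degree `≤ E` with `ev F_i` `K`-independent, a set of `ν` embeddings with
invertible matrix `τ_i(ev F_j)`, and take `Om`-combinations.
`nu_eq_of_dual`: the vectors `(F(xiC τ))_τ`, `F ∈ Om[X]`, `deg F ≤ t`, lie in the `Om`-span of the vectors of conjugates of a
`K`-basis of `span_K (V I t)`, so the rank is at most `nu I y t`.
-/

set_option autoImplicit false

open MvPolynomial

namespace Pool.H76.NN

noncomputable section

variable {k : Type} [Field k] [CharZero k] {σ : Type} [Fintype σ] [DecidableEq σ] {r : ℕ}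

/-- Algebraic closure of the function field. -/
abbrev Om (I : Ideal (MvPolynomial σ k)) [I.IsPrime] : Type := AlgebraicClosure (FF I)

/-- Embeddings of the function field over `k(ybar)`. -/
abbrev Emb (I : Ideal (MvPolynomial σ k)) [I.IsPrime] (y : Fin r → σ → k) : Type :=
  FF I →ₐ[KK I y] Om I

/-- The conjugate of the generic point. -/
def xiC (I : Ideal (MvPolynomial σ k)) [I.IsPrime] (y : Fin r → σ → k) (τ : Emb I y) (s : σ) :
    Om I := τ (xi I s)

theorem xiC_injective (I : Ideal (MvPolynomial σ k)) [I.IsPrime] (y : Fin r → σ → k) :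
    Function.Injective (xiC I y) := by
  sorry

theorem aeval_xiC (I : Ideal (MvPolynomial σ k)) [I.IsPrime] (y : Fin r → σ → k) (τ : Emb I y)
    (F : MvPolynomial σ k) : aeval (xiC I y τ) F = τ (ev I F) := by
  sorry

theorem card_emb (I : Ideal (MvPolynomial σ k)) [I.IsPrime] (y : Fin r → σ → k)
    (hy : AlgebraicIndependent k (yb I y)) (hr : r = dim I) :
    Nat.card (Emb I y) = Module.finrank (KK I y) (FF I) := by
  sorry

theorem finite_emb (I : Ideal (MvPolynomial σ k)) [I.IsPrime] (y : Fin r → σ → k)
    (hy : AlgebraicIndependent k (yb I y)) (hr : r = dim I) : Finite (Emb I y) := by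
  sorry

theorem conj_indep (I : Ideal (MvPolynomial σ k)) [I.IsPrime] (y : Fin r → σ → k)
    (hy : AlgebraicIndependent k (yb I y)) (hr : r = dim I) {m : ℕ} (w : Fin m → FF I)
    (hw : LinearIndependent (KK I y) w) :
    LinearIndependent (Om I) (fun i => (fun τ : Emb I y => τ (w i))) := by
  sorry

theorem exists_dual (I : Ideal (MvPolynomial σ k)) [I.IsPrime] (y : Fin r → σ → k)
    (hy : AlgebraicIndependent k (yb I y)) (hr : r = dim I) (E : ℕ) :
    ∃ (s : Fin (nu I y E) → Emb I y) (G : Fin (nu I y E) → MvPolynomial σ (Om I)),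
      Function.Injective s ∧ (∀ j, (G j).totalDegree ≤ E) ∧
      ∀ i j, eval (xiC I y (s i)) (G j) = if i = j then 1 else 0 := by
  sorry

theorem nu_eq_of_dual (I : Ideal (MvPolynomial σ k)) [I.IsPrime] (y : Fin r → σ → k)
    (hy : AlgebraicIndependent k (yb I y)) (hr : r = dim I) (t : ℕ)
    (h : ∀ τ : Emb I y, ∃ G : MvPolynomial σ (Om I), G.totalDegree ≤ t ∧
      eval (xiC I y τ) G ≠ 0 ∧ ∀ τ' : Emb I y, τ' ≠ τ → eval (xiC I y τ') G = 0) :
    nu I y t = Module.finrank (KK I y) (FF I) := by
  sorry

end

end Pool.H76.NN
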