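import Pool.Agent.H76.NN.NormA

/-!
MODULE DegOne (about 120 lines).  Primes of degree one (linear spaces).
`→`: if `deg I = 1`, `y` GN: `FF I = KK I y`, the norm is the identity, so by `GN.norm_deg` (`w = 1`, `D = 1`) every element of
`V I 1` is a polynomial of degree `≤ 1` in `ybar`.  So `hf I 1 = dim I + 1`.
`←`: `V I 1` is spanned by `1` and the `ybar_i` of a GN tuple `y` (they are independent, `r = dim I`), so
`ev(A) = k[ybar]` and `FF I = KK I y`.
-/

set_option autoImplicit false

open MvPolynomial

namespace Pool.H76.NN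

variable {k : Type} [Field k] [CharZero k] {σ : Type} [Fintype σ] [DecidableEq σ]

theorem dim_add_one_le_hf (I : Ideal (MvPolynomial σ k)) [I.IsPrime] : dim I + 1 ≤ hf I 1 := by
  sorry

theorem deg_eq_one_iff (I : Ideal (MvPolynomial σ k)) [I.IsPrime] :
    deg I = 1 ↔ hf I 1 = dim I + 1 := by
  sorry

/-- If the degree is one then `I` contains `card σ - dim I` linearly independent polynomials of
degree `≤ 1`, which generate `I`. -/
theorem linear_of_deg_one (I : Ideal (MvPolynomial σ k)) [I.IsPrime] (h : deg I = 1) :
    I = Ideal.span {g | g ∈ I ∧ g.totalDegree ≤ 1} := by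
  sorry

end Pool.H76.NN
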