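import Pool.Agent.H76.NN.Trd

/-!
MODULE DerA (about 150 lines).  Paper 1.12: derivations of finitely generated field extensions of characteristic 0.
(a) `z` a finite transcendence basis of `L/k`, `L` finite (algebraic) over `k(z)`: partial derivatives on `k(z)` (fraction field of
a polynomial ring, `Derivation` extended by the quotient rule) extend uniquely to `L` (algebraic separable: for a primitive
element `θ` with minimal polynomial `m`, `d θ = - m^d(θ)/m'(θ)`; or Mathlib: formally étale / `Derivation.liftOfSurjective..`,
`Differential` files in Mathlib/FieldTheory/Differential).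
(b) `L / K'` not algebraic: there is a nonzero `K'`-derivation of `L` (transcendence basis, Zorn-free for finitely generated `L`).
-/

set_option autoImplicit false

open MvPolynomial

namespace Pool.H76.NN

theorem exists_der_of_basis {k L : Type} [Field k] [CharZero k] [Field L] [Algebra k L] {r : ℕ}
    (z : Fin r → L) (hz : AlgebraicIndependent k z)
    (hfin : FiniteDimensional (IntermediateField.adjoin k (Set.range z)) L) (j : Fin r) :
    ∃ d : Derivation k L L, ∀ i, d (z i) = if i = j then 1 else 0 := by
  sorry

/-- For a transcendence basis of `FF I` consisting of values of linear forms. -/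
theorem exists_der {k : Type} [Field k] [CharZero k] {σ : Type} [Fintype σ] [DecidableEq σ] {r : ℕ}
    (I : Ideal (MvPolynomial σ k)) [I.IsPrime] (y : Fin r → σ → k)
    (hy : AlgebraicIndependent k (yb I y)) (hr : r = dim I) (j : Fin r) :
    ∃ d : Derivation k (FF I) (FF I), ∀ i, d (yb I y i) = if i = j then 1 else 0 := by
  sorry

/-- Derivations of the function field are determined by their values on a transcendence basis. -/
theorem der_eq_zero {k : Type} [Field k] [CharZero k] {σ : Type} [Fintype σ] [DecidableEq σ] {r : ℕ}
    (I : Ideal (MvPolynomial σ k)) [I.IsPrime] (y : Fin r → σ → k)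
    (hy : AlgebraicIndependent k (yb I y)) (hr : r = dim I) (d : Derivation k (FF I) (FF I))
    (h : ∀ i, d (yb I y i) = 0) : d = 0 := by
  sorry

end Pool.H76.NN
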