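import Pool.Agent.H76.NN.Defs

/-!
MODULE GNa (about 120 lines).  Two lemmas for the existence of graded Noether normalisation (paper 1.1).

(1) A nonzero homogeneous polynomial `F` in `N+1` variables over the infinite field `k` does not vanish at some
point whose last coordinate is `1`: `F * X_last ≠ 0`, so there is a point `c` with `F(c) c_last ≠ 0`
(`MvPolynomial.funext`), divide by `c_last` and use homogeneity.

(2) One step of the reduction.  `w : Fin (N+1) → L`, `F(w) = 0`, `F ≠ 0` of total degree `d ≥ 1`, `c` with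
`c_last = 1` and `(top form of F)(c) ≠ 0`; `w'_i = w_i - c_i w_last` for `i < N`.  Then every polynomial of
degree `≤ t` in `w` is `∑_{j<d} w_last^j b_j(w')` with `b_j = 0` or `deg b_j + j ≤ t`.
Proof: `F(w'_1 + c_1 Y, .., w'_N + c_N Y, Y)` is a polynomial in `Y` of degree `d` with constant leading coefficient
`F_d(c) ≠ 0`, the coefficient of `Y^j` being a polynomial of degree `≤ d - j` in `w'`.  So
`w_last^d = ∑_{j<d} b_j(w') w_last^j`, `deg b_j ≤ d - j`.  Induction on `t`: write the polynomial in terms of
`w'`, `w_last` (linear substitution) and replace `w_last^e`, `e ≥ d`, by lower powers (induction on `e`).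
-/

set_option autoImplicit false

open MvPolynomial

namespace Pool.H76.NN

variable {k : Type} [Field k]

private theorem gna_scale {n d : ℕ} (F : MvPolynomial (Fin n) k) (hF : F.IsHomogeneous d)
    (c : Fin n → k) (s : k) : eval (fun i => s * c i) F = s ^ d * eval c F := by
  rw [eval_eq', eval_eq', Finset.mul_sum]
  refine Finset.sum_congr rfl fun m hm => ?_
  have hdeg : m.degree = d := by
    have := hF (mem_support_iff.mp hm)
    rw [← this, Finsupp.degree_eq_weight_one]
    rfl
  have h1 : ∏ i, (s * c i) ^ m i = s ^ d * ∏ i, c i ^ m i := by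
    simp_rw [mul_pow]
    rw [Finset.prod_mul_distrib, Finset.prod_pow_eq_pow_sum]
    congr 2
    rw [← hdeg, Finsupp.degree_eq_sum]
  rw [h1]; ring

theorem exists_eval_ne_zero_last [CharZero k] {N d : ℕ} (F : MvPolynomial (Fin (N + 1)) k)
    (hF : F.IsHomogeneous d) (h0 : F ≠ 0) :
    ∃ c : Fin (N + 1) → k, c (Fin.last N) = 1 ∧ eval c F ≠ 0 := by
  have hne : F * X (Fin.last N) ≠ 0 := mul_ne_zero h0 (X_ne_zero _)
  obtain ⟨c, hc⟩ : ∃ c : Fin (N + 1) → k, eval c (F * X (Fin.last N)) ≠ 0 := by
    by_contra hcon
    push Not at hcon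
    exact hne (funext fun c => by rw [hcon c, map_zero])
  rw [map_mul, eval_X] at hc
  have hc1 : eval c F ≠ 0 := left_ne_zero_of_mul hc
  have hc2 : c (Fin.last N) ≠ 0 := right_ne_zero_of_mul hc
  refine ⟨fun i => (c (Fin.last N))⁻¹ * c i, inv_mul_cancel₀ hc2, ?_⟩
  rw [gna_scale F hF]
  exact mul_ne_zero (pow_ne_zero _ (inv_ne_zero hc2)) hc1

/-- Filtration pieces. -/
private noncomputable def gnaS (k : Type) [Field k] (N t j : ℕ) : Submodule k (MvPolynomial (Fin N) k) :=
  if j ≤ t then restrictTotalDegree (Fin N) k (t - j) else ⊥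

private theorem gnaS_mul {N s t i j : ℕ} {a b : MvPolynomial (Fin N) k}
    (ha : a ∈ gnaS k N s i) (hb : b ∈ gnaS k N t j) : a * b ∈ gnaS k N (s + t) (i + j) := by
  unfold gnaS at *
  split_ifs at ha with h1
  · split_ifs at hb with h2
    · rw [if_pos (by omega)]
      rw [mem_restrictTotalDegree] at *
      exact (totalDegree_mul _ _).trans (by omega)
    · rw [Submodule.mem_bot] at hb
      rw [hb, mul_zero]; exact Submodule.zero_mem _
  · rw [Submodule.mem_bot] at ha
    rw [ha, zero_mul]; exact Submodule.zero_mem _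

private theorem gnaS_mono {N s t j : ℕ} (h : s ≤ t) : gnaS k N s j ≤ gnaS k N t j := by
  intro a ha
  unfold gnaS at *
  split_ifs at ha with h1
  · rw [if_pos (by omega)]
    rw [mem_restrictTotalDegree] at *
    omega
  · rw [Submodule.mem_bot] at ha
    rw [ha]; exact Submodule.zero_mem _

/-- The weight filtration on `k[X][Y]`. -/
private def gnaW {N : ℕ} (t : ℕ) (p : Polynomial (MvPolynomial (Fin N) k)) : Prop :=
  ∀ j, p.coeff j ∈ gnaS k N t j

private theorem gnaW_mono {N s t : ℕ} (h : s ≤ t) {p : Polynomial (MvPolynomial (Fin N) k)}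
    (hp : gnaW s p) : gnaW t p := fun j => gnaS_mono h (hp j)

private theorem gnaW_add {N t : ℕ} {p q : Polynomial (MvPolynomial (Fin N) k)}
    (hp : gnaW t p) (hq : gnaW t q) : gnaW t (p + q) := fun j => by
  rw [Polynomial.coeff_add]; exact Submodule.add_mem _ (hp j) (hq j)

private theorem gnaW_sub {N t : ℕ} {p q : Polynomial (MvPolynomial (Fin N) k)}
    (hp : gnaW t p) (hq : gnaW t q) : gnaW t (p - q) := fun j => by
  rw [Polynomial.coeff_sub]; exact Submodule.sub_mem _ (hp j) (hq j)

private theorem gnaW_mul {N s t : ℕ} {p q : Polynomial (MvPolynomial (Fin N) k)}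
    (hp : gnaW s p) (hq : gnaW t q) : gnaW (s + t) (p * q) := fun j => by
  rw [Polynomial.coeff_mul]
  refine Submodule.sum_mem _ fun x hx => ?_
  rw [← Finset.HasAntidiagonal.mem_antidiagonal.mp hx]
  exact gnaS_mul (hp _) (hq _)

private theorem gnaW_C {N : ℕ} (a : MvPolynomial (Fin N) k) (t : ℕ) (h : a.totalDegree ≤ t) :
    gnaW t (Polynomial.C a) := fun j => by
  rw [Polynomial.coeff_C]
  split_ifs with h1
  · subst h1
    unfold gnaS
    rw [if_pos (Nat.zero_le _), mem_restrictTotalDegree]
    simpa using h
  · exact Submodule.zero_mem _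

private theorem gnaW_X {N : ℕ} : gnaW 1 (Polynomial.X : Polynomial (MvPolynomial (Fin N) k)) :=
  fun j => by
  rw [Polynomial.coeff_X]
  split_ifs with h1
  · subst h1
    unfold gnaS
    rw [if_pos le_rfl, mem_restrictTotalDegree]
    simp
  · exact Submodule.zero_mem _

private theorem gnaW_one {N : ℕ} : gnaW 0 (1 : Polynomial (MvPolynomial (Fin N) k)) := by
  have := gnaW_C (1 : MvPolynomial (Fin N) k) 0 (by simp)
  simpa using this

private theorem gnaW_pow {N s : ℕ} {p : Polynomial (MvPolynomial (Fin N) k)}
    (hp : gnaW s p) (n : ℕ) : gnaW (s * n) (p ^ n) := by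
  induction n with
  | zero => simpa using gnaW_one
  | succ n ih =>
    rw [pow_succ, Nat.mul_succ]
    exact gnaW_mul ih hp

private theorem gnaW_prod {N : ℕ} {ι : Type} (s : Finset ι) (n : ι → ℕ)
    (p : ι → Polynomial (MvPolynomial (Fin N) k)) (hp : ∀ i ∈ s, gnaW (n i) (p i)) :
    gnaW (∑ i ∈ s, n i) (∏ i ∈ s, p i) := by
  classical
  induction s using Finset.induction_on with
  | empty => simpa using gnaW_one
  | insert a s ha ih =>
    rw [Finset.sum_insert ha, Finset.prod_insert ha]
    exact gnaW_mul (hp a (Finset.mem_insert_self _ _))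
      (ih fun i hi => hp i (Finset.mem_insert_of_mem hi))

/-- The linear substitution. -/
private noncomputable def gnaG {N : ℕ} (c : Fin (N + 1) → k) (i : Fin (N + 1)) :
    Polynomial (MvPolynomial (Fin N) k) :=
  Fin.lastCases (motive := fun _ => Polynomial (MvPolynomial (Fin N) k)) Polynomial.X
    (fun i => Polynomial.C (X i) + Polynomial.C (C (c i.castSucc)) * Polynomial.X) i

private theorem gnaG_last {N : ℕ} (c : Fin (N + 1) → k) :
    gnaG c (Fin.last N) = Polynomial.X := by
  unfold gnaG; rw [Fin.lastCases_last]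

private theorem gnaG_castSucc {N : ℕ} (c : Fin (N + 1) → k) (i : Fin N) :
    gnaG c i.castSucc = Polynomial.C (X i) + Polynomial.C (C (c i.castSucc)) * Polynomial.X := by
  unfold gnaG; rw [Fin.lastCases_castSucc]

private theorem gnaG_W {N : ℕ} (c : Fin (N + 1) → k) (i : Fin (N + 1)) : gnaW 1 (gnaG c i) := by
  induction i using Fin.lastCases with
  | last => rw [gnaG_last]; exact gnaW_X
  | cast i =>
    rw [gnaG_castSucc]
    refine gnaW_add (gnaW_C _ _ ?_) ?_
    · rw [totalDegree_X]
    · have := gnaW_mul (gnaW_C (C (c i.castSucc) : MvPolynomial (Fin N) k) 0 (by simp)) gnaW_X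
      simpa using this

private noncomputable def gnaPhi {N : ℕ} (c : Fin (N + 1) → k) :
    MvPolynomial (Fin (N + 1)) k →ₐ[k] Polynomial (MvPolynomial (Fin N) k) :=
  aeval (gnaG c)

private theorem gnaPhi_W {N : ℕ} (c : Fin (N + 1) → k) (t : ℕ) (G : MvPolynomial (Fin (N + 1)) k)
    (hG : G.totalDegree ≤ t) : gnaW t (gnaPhi c G) := by
  have h1 : gnaPhi c G = ∑ m ∈ G.support, gnaPhi c (monomial m (G.coeff m)) := by
    conv_lhs => rw [G.as_sum]
    rw [map_sum]
  rw [h1]
  intro j
  rw [Polynomial.finsetSum_coeff]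
  refine Submodule.sum_mem _ fun m hm => ?_
  have hm' : m.degree ≤ t := (le_totalDegree hm).trans hG
  have h2 : gnaPhi c (monomial m (G.coeff m)) =
      Polynomial.C (C (G.coeff m)) * ∏ i, gnaG c i ^ m i := by
    unfold gnaPhi
    rw [aeval_monomial]
    rw [Finsupp.prod_fintype _ _ (fun i => pow_zero _)]
    rfl
  rw [h2]
  have h3 : gnaW (0 + ∑ i, 1 * m i) (Polynomial.C (C (G.coeff m)) * ∏ i, gnaG c i ^ m i) := by
    refine gnaW_mul (gnaW_C _ _ (by simp)) (gnaW_prod _ _ _ fun i _ => gnaW_pow (gnaG_W c i) _)
  refine gnaW_mono ?_ h3 j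
  rw [Finsupp.degree_eq_sum] at hm'
  simpa using hm'

private theorem gnaPhi_coeff {N : ℕ} (c : Fin (N + 1) → k) (hc : c (Fin.last N) = 1)
    (d : ℕ) (F : MvPolynomial (Fin (N + 1)) k) :
    eval (fun _ => (0 : k)) ((gnaPhi c F).coeff d) = eval c (homogeneousComponent d F) := by
  have key : ∀ i, Polynomial.map (eval (fun _ => (0 : k))) (gnaG c i) =
      Polynomial.C (c i) * Polynomial.X := by
    intro i
    induction i using Fin.lastCases with
    | last => rw [gnaG_last, hc]; simp
    | cast i => rw [gnaG_castSucc]; simp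
  induction F using MvPolynomial.induction_on' with
  | monomial m a =>
    rw [← Polynomial.coeff_map]
    have h2 : gnaPhi c (monomial m a) =
        Polynomial.C (C a) * ∏ i, gnaG c i ^ m i := by
      unfold gnaPhi
      rw [aeval_monomial]
      rw [Finsupp.prod_fintype _ _ (fun i => pow_zero _)]
      rfl
    rw [h2, Polynomial.map_mul, Polynomial.map_prod]
    simp_rw [Polynomial.map_pow, key, mul_pow]
    rw [Finset.prod_mul_distrib, Finset.prod_pow_eq_pow_sum, Polynomial.map_C]
    have h3 : ∏ i, (Polynomial.C (c i) : Polynomial k) ^ m i = Polynomial.C (∏ i, c i ^ m i) := by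
      rw [map_prod]; simp_rw [map_pow]
    rw [h3, ← mul_assoc, ← Polynomial.C_mul, Polynomial.coeff_C_mul, Polynomial.coeff_X_pow]
    rw [homogeneousComponent_of_mem (isHomogeneous_monomial a rfl)]
    have h4 : ∑ i, m i = m.degree := by rw [Finsupp.degree_eq_sum]
    rw [h4]
    split_ifs with h
    · rw [eval_monomial, Finsupp.prod_fintype _ _ (fun i => pow_zero _)]
      simp
    · simp
  | add p q hp hq =>
    rw [map_add, Polynomial.coeff_add, map_add, hp, hq, map_add, map_add]

theorem reduce_step [CharZero k] {L : Type} [Field L] [Algebra k L] {N : ℕ} (w : Fin (N + 1) → L)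
    (F : MvPolynomial (Fin (N + 1)) k) (hF0 : F ≠ 0) (hF : aeval w F = 0) :
    ∃ (c : Fin (N + 1) → k) (d : ℕ), c (Fin.last N) = 1 ∧ 1 ≤ d ∧
      ∀ (t : ℕ) (G : MvPolynomial (Fin (N + 1)) k), G.totalDegree ≤ t →
        ∃ b : Fin d → MvPolynomial (Fin N) k,
          (∀ j, b j = 0 ∨ (b j).totalDegree + j ≤ t) ∧
          aeval w G = ∑ j : Fin d, w (Fin.last N) ^ (j : ℕ) *
            aeval (fun i : Fin N => w i.castSucc - algebraMap k L (c i.castSucc) * w (Fin.last N))
              (b j) := by
  classical
  set d := F.totalDegree with hd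
  -- `d ≥ 1`
  have hd1 : 1 ≤ d := by
    by_contra hcon
    have h0 : F.totalDegree = 0 := by omega
    rw [totalDegree_eq_zero_iff_eq_C] at h0
    rw [h0, aeval_C] at hF
    have h1 : coeff 0 F = 0 := by
      have := (algebraMap k L).injective (hF.trans (map_zero _).symm)
      exact this
    rw [h1, map_zero] at h0
    exact hF0 h0
  -- the top form
  have htop : homogeneousComponent d F ≠ 0 := by
    intro h
    obtain ⟨m, hm, hmd⟩ : ∃ m ∈ F.support, m.degree = d := by
      have hne : F.support.Nonempty := support_nonempty.mpr hF0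
      obtain ⟨m, hm, hmax⟩ := Finset.exists_mem_eq_sup F.support hne (fun m => m.degree)
      refine ⟨m, hm, ?_⟩
      rw [hd, ← hmax]
      rfl
    have h2 := coeff_homogeneousComponent d F m
    rw [h, coeff_zero, if_pos hmd] at h2
    exact (mem_support_iff.mp hm) h2.symm
  obtain ⟨c, hc1, hc2⟩ := exists_eval_ne_zero_last _ (homogeneousComponent_isHomogeneous d F) htop
  refine ⟨c, d, hc1, hd1, fun t G hG => ?_⟩
  -- evaluation
  set w' : Fin N → L := fun i : Fin N =>
    w i.castSucc - algebraMap k L (c i.castSucc) * w (Fin.last N) with hw'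
  set ψ : Polynomial (MvPolynomial (Fin N) k) →+* L :=
    Polynomial.eval₂RingHom (aeval w' : MvPolynomial (Fin N) k →ₐ[k] L).toRingHom
      (w (Fin.last N)) with hψ
  have hψG : ∀ G : MvPolynomial (Fin (N + 1)) k, ψ (gnaPhi c G) = aeval w G := by
    intro G
    have h1 : ψ.comp (gnaPhi c).toRingHom = (aeval w : MvPolynomial (Fin (N + 1)) k →ₐ[k] L).toRingHom := by
      apply MvPolynomial.ringHom_ext
      · intro r
        simp [hψ, gnaPhi]
      · intro i
        simp only [RingHom.comp_apply, AlgHom.toRingHom_eq_coe, RingHom.coe_coe, aeval_X]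
        unfold gnaPhi
        rw [aeval_X]
        induction i using Fin.lastCases with
        | last => rw [gnaG_last]; simp [hψ]
        | cast i => rw [gnaG_castSucc]; simp [hψ, hw']
    exact congrArg (fun f => f G) h1
  -- the relation
  set q := gnaPhi c F with hq
  have hqW : gnaW d q := gnaPhi_W c d F le_rfl
  have hq0 : ψ q = 0 := by rw [hq, hψG, hF]
  obtain ⟨a, ha0, hqd⟩ : ∃ a : k, a ≠ 0 ∧ q.coeff d = C a := by
    have h1 := hqW d
    unfold gnaS at h1
    rw [if_pos le_rfl, mem_restrictTotalDegree, Nat.sub_self, Nat.le_zero,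
      totalDegree_eq_zero_iff_eq_C] at h1
    refine ⟨_, ?_, h1⟩
    intro h2
    have h3 := gnaPhi_coeff c hc1 d F
    rw [← hq, h1, h2] at h3
    simp at h3
    exact hc2 h3.symm
  have hqj : ∀ j, d < j → q.coeff j = 0 := by
    intro j hj
    have h1 := hqW j
    unfold gnaS at h1
    rw [if_neg (by omega), Submodule.mem_bot] at h1
    exact h1
  -- division
  have hdiv : ∀ n (p : Polynomial (MvPolynomial (Fin N) k)), p.natDegree < n → gnaW t p →
      ∃ r : Polynomial (MvPolynomial (Fin N) k), r.natDegree < d ∧ gnaW t r ∧ ψ p = ψ r := by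
    intro n
    induction n with
    | zero => intro p hp; omega
    | succ n ih =>
      intro p hp hpW
      by_cases hnd : p.natDegree < d
      · exact ⟨p, hnd, hpW, rfl⟩
      · push Not at hnd
        by_cases hpn : p.natDegree < n
        · exact ih p hpn hpW
        have hpn' : p.natDegree = n := by omega
        by_cases hp0 : p.coeff n = 0
        · -- then `p = 0`
          have : p = 0 := by
            rw [← hpn'] at hp0
            exact Polynomial.leadingCoeff_eq_zero.mp hp0
          refine ⟨0, by rw [Polynomial.natDegree_zero]; exact hd1, fun j => ?_, by rw [this]⟩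
          rw [Polynomial.coeff_zero]; exact Submodule.zero_mem _
        have hnt : n ≤ t := by
          by_contra hcon
          have h1 := hpW n
          unfold gnaS at h1
          rw [if_neg hcon, Submodule.mem_bot] at h1
          exact hp0 h1
        -- subtract a multiple of `q`
        set m : Polynomial (MvPolynomial (Fin N) k) :=
          Polynomial.C (p.coeff n * C a⁻¹) * Polynomial.X ^ (n - d) * q with hm
        have hmc : ∀ j, m.coeff j = if n - d ≤ j then p.coeff n * C a⁻¹ * q.coeff (j - (n - d))
            else 0 := by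
          intro j
          rw [hm, mul_assoc, Polynomial.coeff_C_mul, Polynomial.coeff_X_pow_mul']
          split_ifs <;> simp
        have hmW : gnaW t m := by
          have h1 : (p.coeff n * C a⁻¹).totalDegree ≤ t - n := by
            have h1 := hpW n
            unfold gnaS at h1
            rw [if_pos hnt, mem_restrictTotalDegree] at h1
            refine (totalDegree_mul _ _).trans ?_
            rw [totalDegree_C]
            omega
          have h2 := gnaW_mul (gnaW_mul (gnaW_C _ _ h1) (gnaW_pow gnaW_X (n - d))) hqW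
          refine gnaW_mono (by omega) h2
        have hmq : ψ m = 0 := by rw [hm, map_mul, hq0, mul_zero]
        have hdegm : (p - m).natDegree < n := by
          have h1 : (p - m).natDegree ≤ n - 1 := by
            rw [Polynomial.natDegree_le_iff_coeff_eq_zero]
            intro i hi
            rw [Polynomial.coeff_sub, hmc, if_pos (by omega)]
            rcases Nat.lt_or_ge n i with hni | hni
            · rw [Polynomial.coeff_eq_zero_of_natDegree_lt (by omega : p.natDegree < i),
                hqj _ (by omega), mul_zero, sub_zero]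
            · have hin : i = n := by omega
              subst hin
              have h2 : i - (i - d) = d := by omega
              rw [h2, hqd, mul_assoc, ← C_mul, inv_mul_cancel₀ ha0, C_1, mul_one, sub_self]
          omega
        obtain ⟨r, hr1, hr2, hr3⟩ := ih (p - m) hdegm (gnaW_sub hpW hmW)
        exact ⟨r, hr1, hr2, by rw [← hr3, map_sub, hmq, sub_zero]⟩
  obtain ⟨r, hr1, hr2, hr3⟩ := hdiv _ (gnaPhi c G) (Nat.lt_succ_self _) (gnaPhi_W c t G hG)
  refine ⟨fun j => r.coeff j, fun j => ?_, ?_⟩
  · have h1 := hr2 j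
    show r.coeff j = 0 ∨ (r.coeff j).totalDegree + j ≤ t
    unfold gnaS at h1
    split_ifs at h1 with h2
    · rw [mem_restrictTotalDegree] at h1
      right; omega
    · left; exact (Submodule.mem_bot _).mp h1
  · rw [← hψG, hr3, hψ]
    rw [Polynomial.coe_eval₂RingHom, Polynomial.eval₂_eq_sum_range' _ hr1, Finset.sum_range]
    refine Finset.sum_congr rfl fun j _ => ?_
    rw [mul_comm]
    rfl

end Pool.H76.NN
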