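import Pool.Agent.H76.NN.Basic
import Pool.Agent.H76.NN.Trd

/-!
MODULE GNc (about 150 lines).  Paper 1.2: consequences of GN.
`R = ev(A)` is generated as a module over `k[ybar]` by the `ev (g j)`; so it is integral over `k[ybar]`, `FF I` (the
field of fractions of `R`) is spanned over `k(ybar)` by the `ev (g j)`, in particular finite; `ybar` is a transcendence basis, `r = dim I`.
The norm of an element of `R` is integral over `k[ybar]` and lies in `k(ybar)`; `k[ybar]` is a polynomial ring, integrally closed.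
-/

set_option autoImplicit false

open MvPolynomial

namespace Pool.H76.NN

variable {k : Type} [Field k] [CharZero k] {σ : Type} [Fintype σ] [DecidableEq σ] {r : ℕ}

private noncomputable abbrev GNc_R0 (I : Ideal (MvPolynomial σ k)) (y : Fin r → σ → k) :
    Subalgebra k (FF I) := Algebra.adjoin k (Set.range (yb I y))

omit [CharZero k] [DecidableEq σ] in
private theorem GNc_yb_mem (I : Ideal (MvPolynomial σ k)) (y : Fin r → σ → k) (i : Fin r) :
    yb I y i ∈ (ev I).range := ⟨_, rfl⟩

omit [CharZero k] [DecidableEq σ] in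
private theorem GNc_R0_le (I : Ideal (MvPolynomial σ k)) (y : Fin r → σ → k) :
    GNc_R0 I y ≤ (ev I).range := by
  refine Algebra.adjoin_le ?_
  rintro _ ⟨i, rfl⟩
  exact GNc_yb_mem I y i

/-- The ring `ev(A)` as an algebra over `k[ybar]`. -/
private noncomputable def GNc_S (I : Ideal (MvPolynomial σ k)) (y : Fin r → σ → k) :
    Subalgebra (GNc_R0 I y) (FF I) :=
  { (ev I).range.toSubsemiring with
    algebraMap_mem' := fun a => GNc_R0_le I y a.2 }

omit [CharZero k] [DecidableEq σ] in
private theorem GNc_mem_S (I : Ideal (MvPolynomial σ k)) (y : Fin r → σ → k) (x : FF I) :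
    x ∈ GNc_S I y ↔ ∃ F, ev I F = x := Iff.rfl

omit [CharZero k] [DecidableEq σ] in
private theorem GNc_aeval_mem (I : Ideal (MvPolynomial σ k)) (y : Fin r → σ → k)
    (a : MvPolynomial (Fin r) k) : aeval (yb I y) a ∈ GNc_R0 I y := by
  have h5 := Algebra.adjoin_range_eq_range_aeval k (yb I y)
  rw [GNc_R0, h5]
  exact ⟨a, rfl⟩

omit [CharZero k] [DecidableEq σ] in
private theorem GNc_mem_R0 (I : Ideal (MvPolynomial σ k)) (y : Fin r → σ → k) (x : FF I)
    (hx : x ∈ GNc_R0 I y) : ∃ a : MvPolynomial (Fin r) k, aeval (yb I y) a = x := by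
  have h5 := Algebra.adjoin_range_eq_range_aeval k (yb I y)
  rw [GNc_R0, h5] at hx
  exact hx

omit [CharZero k] [DecidableEq σ] in
private theorem GNc_fg {I : Ideal (MvPolynomial σ k)} [I.IsPrime]
    {y : Fin r → σ → k} (h : GN I y) : (Subalgebra.toSubmodule (GNc_S I y)).FG := by
  obtain ⟨m, g, d, hd, hg⟩ := h.gen
  refine (Submodule.fg_def.2 ⟨Set.range (fun j => ev I (g j)), Set.finite_range _, ?_⟩)
  apply le_antisymm
  · rw [Submodule.span_le]
    rintro _ ⟨j, rfl⟩
    exact ⟨g j, rfl⟩
  · rintro _ ⟨F, rfl⟩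
    obtain ⟨a, -, ha⟩ := hg F.totalDegree F le_rfl
    change ev I F ∈ _
    rw [ha]
    refine Submodule.sum_mem _ (fun j _ => ?_)
    have h2 : ev I (g j) * aeval (yb I y) (a j) =
        (⟨aeval (yb I y) (a j), GNc_aeval_mem I y (a j)⟩ : GNc_R0 I y) • ev I (g j) := by
      rw [Subalgebra.smul_def, smul_eq_mul, mul_comm]
    rw [h2]
    exact Submodule.smul_mem _ _ (Submodule.subset_span ⟨j, rfl⟩)

omit [CharZero k] [DecidableEq σ] in
private theorem GNc_int {I : Ideal (MvPolynomial σ k)} [I.IsPrime]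
    {y : Fin r → σ → k} (h : GN I y) (F : MvPolynomial σ k) :
    IsIntegral (Algebra.adjoin k (Set.range (yb I y))) (ev I F) :=
  IsIntegral.of_mem_of_fg (GNc_S I y) (GNc_fg h) _ ⟨F, rfl⟩

omit [CharZero k] [DecidableEq σ] [Fintype σ] in
private theorem GNc_quot (I : Ideal (MvPolynomial σ k)) [I.IsPrime] (z : FF I) :
    ∃ F G : MvPolynomial σ k, ev I G ≠ 0 ∧ z = ev I F / ev I G := by
  obtain ⟨x, y, hy, hz⟩ := IsFractionRing.div_surjective (A := MvPolynomial σ k ⧸ I) z
  obtain ⟨F, rfl⟩ := Ideal.Quotient.mk_surjective x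
  obtain ⟨G, rfl⟩ := Ideal.Quotient.mk_surjective y
  refine ⟨F, G, ?_, hz.symm⟩
  change algebraMap (MvPolynomial σ k ⧸ I) (FF I) (Ideal.Quotient.mk I G) ≠ 0
  exact IsFractionRing.to_map_ne_zero_of_mem_nonZeroDivisors hy

omit [CharZero k] [DecidableEq σ] in
private theorem GNc_alg {I : Ideal (MvPolynomial σ k)} [I.IsPrime]
    {y : Fin r → σ → k} (h : GN I y) :
    Algebra.IsAlgebraic (Algebra.adjoin k (Set.range (yb I y))) (FF I) := by
  constructor
  intro z
  obtain ⟨F, G, hG, rfl⟩ := GNc_quot I z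
  rw [div_eq_mul_inv]
  exact (GNc_int h F).isAlgebraic.mul ((GNc_int h G).isAlgebraic.inv)

theorem GN.isTranscendenceBasis {I : Ideal (MvPolynomial σ k)} [I.IsPrime]
    {y : Fin r → σ → k} (h : GN I y) : IsTranscendenceBasis k (yb I y) := by
  rw [isTranscendenceBasis_iff_algebraicIndependent_isAlgebraic]
  exact ⟨h.indep, GNc_alg h⟩

theorem GN.card {I : Ideal (MvPolynomial σ k)} [I.IsPrime]
    {y : Fin r → σ → k} (h : GN I y) : r = dim I :=
  dim_eq_of_basis I _ h.isTranscendenceBasis

open scoped IntermediateField.algebraAdjoinAdjoin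

theorem GN.finite {I : Ideal (MvPolynomial σ k)} [I.IsPrime]
    {y : Fin r → σ → k} (h : GN I y) : FiniteDimensional (KK I y) (FF I) := by
  have h1 : ∀ x ∈ Set.range (xi I), IsIntegral (KK I y) x := by
    rintro _ ⟨i, rfl⟩
    have h2 : IsIntegral (Algebra.adjoin k (Set.range (yb I y))) (xi I i) := GNc_int h (X i)
    exact h2.tower_top (A := (IntermediateField.adjoin k (Set.range (yb I y))))
  have h3 : FiniteDimensional (KK I y)
      (IntermediateField.adjoin (KK I y) (Set.range (xi I))) :=
    IntermediateField.finiteDimensional_adjoin h1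
  have h4 : IntermediateField.adjoin (KK I y) (Set.range (xi I)) = ⊤ := by
    rw [eq_top_iff]
    intro z _
    have hz : z ∈ IntermediateField.adjoin k (Set.range (xi I)) := by
      rw [adjoin_xi]; trivial
    have h5 : IntermediateField.adjoin k (Set.range (xi I)) ≤
        (IntermediateField.adjoin (KK I y) (Set.range (xi I))).restrictScalars k := by
      rw [IntermediateField.adjoin_le_iff]
      exact IntermediateField.subset_adjoin _ _
    exact h5 hz
  rw [h4] at h3
  exact Module.Finite.equiv (IntermediateField.topEquiv (F := KK I y) (E := FF I)).toLinearEquiv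

theorem GN.integral {I : Ideal (MvPolynomial σ k)} [I.IsPrime]
    {y : Fin r → σ → k} (h : GN I y) (F : MvPolynomial σ k) :
    IsIntegral (Algebra.adjoin k (Set.range (yb I y))) (ev I F) :=
  GNc_int h F

/-- Every element of `k(ybar)` is a quotient of polynomials in `ybar`. -/
theorem mem_KK_iff (I : Ideal (MvPolynomial σ k)) [I.IsPrime] (y : Fin r → σ → k)
    (x : FF I) : x ∈ KK I y ↔ ∃ a b : MvPolynomial (Fin r) k, aeval (yb I y) b ≠ 0 ∧
      x = aeval (yb I y) a / aeval (yb I y) b := by
  rw [KK, IntermediateField.mem_adjoin_range_iff]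
  constructor
  · rintro ⟨a, b, hx⟩
    by_cases hb : aeval (yb I y) b = 0
    · refine ⟨0, 1, ?_, ?_⟩
      · simp
      · rw [hx, hb]; simp
    · exact ⟨a, b, hb, hx⟩
  · rintro ⟨a, b, -, hx⟩
    exact ⟨a, b, hx⟩

omit [CharZero k] [DecidableEq σ] in
private theorem GNc_closed {I : Ideal (MvPolynomial σ k)} [I.IsPrime]
    {y : Fin r → σ → k} (h : GN I y) :
    IsIntegrallyClosed (Algebra.adjoin k (Set.range (yb I y))) :=
  IsIntegrallyClosed.of_equiv (h.indep.aevalEquiv).toRingEquiv

/-- An element of `k(ybar)` integral over `k[ybar]` is a polynomial in `ybar`. -/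
theorem GN.mem_of_integral {I : Ideal (MvPolynomial σ k)} [I.IsPrime]
    {y : Fin r → σ → k} (h : GN I y) (x : KK I y)
    (hx : IsIntegral (Algebra.adjoin k (Set.range (yb I y))) (x : FF I)) :
    ∃ a : MvPolynomial (Fin r) k, (x : FF I) = aeval (yb I y) a := by
  have hc := GNc_closed h
  let x' : IntermediateField.adjoin k (Set.range (yb I y)) := x
  have hx' : IsIntegral (Algebra.adjoin k (Set.range (yb I y))) x' := by
    have hinj : Function.Injective (algebraMap
        (IntermediateField.adjoin k (Set.range (yb I y))) (FF I)) :=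
      (algebraMap (IntermediateField.adjoin k (Set.range (yb I y))) (FF I)).injective
    exact (isIntegral_algebraMap_iff (x := x') hinj).1 hx
  obtain ⟨a, ha⟩ := IsIntegrallyClosed.algebraMap_eq_of_integral hx'
  obtain ⟨b, hb⟩ := GNc_mem_R0 I y a a.2
  refine ⟨b, ?_⟩
  rw [hb]
  exact (congrArg (fun z : IntermediateField.adjoin k (Set.range (yb I y)) => (z : FF I)) ha).symm

/-- Norms of elements integral over `k[ybar]` are polynomials in `ybar`. -/
theorem GN.norm_poly {I : Ideal (MvPolynomial σ k)} [I.IsPrime]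
    {y : Fin r → σ → k} (h : GN I y) (f : FF I)
    (hf : IsIntegral (Algebra.adjoin k (Set.range (yb I y))) f) :
    ∃ N : MvPolynomial (Fin r) k, ((Algebra.norm (KK I y) f : KK I y) : FF I) = aeval (yb I y) N := by
  refine h.mem_of_integral _ ?_
  have h1 : IsIntegral (Algebra.adjoin k (Set.range (yb I y)))
      (Algebra.norm (IntermediateField.adjoin k (Set.range (yb I y))) f) :=
    Algebra.isIntegral_norm _ hf
  exact h1.algebraMap (B := FF I)

omit [CharZero k] [DecidableEq σ] in
private theorem GNc_span {I : Ideal (MvPolynomial σ k)} [I.IsPrime]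
    {y : Fin r → σ → k} (h : GN I y) {m : ℕ} (g : Fin m → MvPolynomial σ k)
    (hg : ∀ F : MvPolynomial σ k, ∃ a : Fin m → MvPolynomial (Fin r) k,
      ev I F = ∑ j, ev I (g j) * aeval (yb I y) (a j)) :
    Submodule.span (KK I y) (Set.range (fun j => ev I (g j))) = ⊤ := by
  have hmem : ∀ a : MvPolynomial (Fin r) k, aeval (yb I y) a ∈ KK I y := by
    intro a
    exact IntermediateField.algebra_adjoin_le_adjoin k _ (GNc_aeval_mem I y a)
  have h1 : ∀ F : MvPolynomial σ k,
      ev I F ∈ Submodule.span (KK I y) (Set.range (fun j => ev I (g j))) := by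
    intro F
    obtain ⟨a, ha⟩ := hg F
    rw [ha]
    refine Submodule.sum_mem _ (fun j _ => ?_)
    have h2 : ev I (g j) * aeval (yb I y) (a j) =
        (⟨aeval (yb I y) (a j), hmem (a j)⟩ : KK I y) • ev I (g j) := by
      rw [IntermediateField.smul_def, smul_eq_mul, mul_comm]
    rw [h2]
    exact Submodule.smul_mem _ _ (Submodule.subset_span ⟨j, rfl⟩)
  rw [eq_top_iff]
  intro z _
  obtain ⟨F, G, hG, rfl⟩ := GNc_quot I z
  let s : GNc_S I y := ⟨ev I G, ⟨G, rfl⟩⟩
  have hs : s ≠ 0 := by
    intro hs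
    exact hG (congrArg Subtype.val hs)
  have hsi : IsIntegral (GNc_R0 I y) s := by
    have h8 : IsIntegral (GNc_R0 I y) ((GNc_S I y).val s) := GNc_int h G
    exact (isIntegral_algHom_iff (GNc_S I y).val Subtype.val_injective).1 h8
  obtain ⟨ρ, hρ, v, hv⟩ := hsi.isAlgebraic.exists_nonzero_dvd (mem_nonZeroDivisors_of_ne_zero hs)
  have hv' : (ρ : FF I) = ev I G * (v : FF I) := by
    have := congrArg (fun u : GNc_S I y => (u : FF I)) hv
    exact this
  obtain ⟨V', hV'⟩ := (GNc_mem_S I y _).1 v.2
  have hρ0 : (ρ : FF I) ≠ 0 := fun e => hρ (Subtype.ext e)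
  have hK : (ρ : FF I)⁻¹ ∈ KK I y :=
    (KK I y).inv_mem (IntermediateField.algebra_adjoin_le_adjoin k _ ρ.2)
  have hz : ev I F / ev I G = (⟨(ρ : FF I)⁻¹, hK⟩ : KK I y) • ev I (F * V') := by
    rw [IntermediateField.smul_def, smul_eq_mul, map_mul, hV']
    have hv0 : (v : FF I) ≠ 0 := by
      intro e
      rw [e, mul_zero] at hv'
      exact hρ0 hv'
    change ev I F / ev I G = (ρ : FF I)⁻¹ * (ev I F * (v : FF I))
    rw [hv']
    field_simp
  rw [hz]
  exact Submodule.smul_mem _ _ (h1 _)

private theorem GNc_choose {K V : Type} [Field K] [AddCommGroup V] [Module K V]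
    [FiniteDimensional K V] (s : Set V) (n : ℕ)
    (hs : Submodule.span K s = ⊤) (hn : n = Module.finrank K V) :
    ∃ b : Module.Basis (Fin n) K V, ∀ i, b i ∈ s := by
  subst hn
  obtain ⟨f, hf, hspan, hli⟩ := Submodule.exists_fun_fin_finrank_span_eq K s
  have h1 : Module.finrank K (Submodule.span K s) = Module.finrank K V := by
    rw [hs, finrank_top]
  let e : Fin (Module.finrank K V) ≃ Fin (Module.finrank K (Submodule.span K s)) :=
    finCongr h1.symm
  refine ⟨Module.Basis.mk (v := f ∘ e) (hli.comp _ e.injective) ?_, ?_⟩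
  · rw [Set.range_comp, Set.range_eq_univ.2 e.surjective, Set.image_univ, hspan, hs]
  · intro i
    rw [Module.Basis.mk_apply]
    exact hf _

/-- The `ev F` span `FF I` over `k(ybar)`; a basis can be chosen in some `V I c`, and there is a common denominator
for the generators of GN: paper 1.3 (set-up). -/
theorem GN.basis {I : Ideal (MvPolynomial σ k)} [I.IsPrime]
    {y : Fin r → σ → k} (h : GN I y) :
    ∃ (c : ℕ) (b : Module.Basis (Fin (Module.finrank (KK I y) (FF I))) (KK I y) (FF I))
      (q : MvPolynomial (Fin r) k), (∀ i, b i ∈ V I c) ∧ q ≠ 0 ∧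
      ∀ (t : ℕ) (F : MvPolynomial σ k), F.totalDegree ≤ t →
        ∃ a : Fin (Module.finrank (KK I y) (FF I)) → MvPolynomial (Fin r) k,
          (∀ i, (a i).totalDegree ≤ t + c) ∧
          aeval (yb I y) q * ev I F = ∑ i, aeval (yb I y) (a i) * b i := by
  obtain ⟨m, g, d, hd, hg⟩ := h.gen
  have hspan := GNc_span h g (fun F => by
    obtain ⟨a, -, ha⟩ := hg F.totalDegree F le_rfl
    exact ⟨a, ha⟩)
  have hfin := h.finite
  obtain ⟨b, hb⟩ := GNc_choose (K := KK I y) (V := FF I) _ _ hspan rfl
  choose p hp using hb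
  obtain ⟨⟨u, hu⟩, hint⟩ := IsLocalization.exist_integer_multiples_of_finite
    (nonZeroDivisors (Algebra.adjoin k (Set.range (yb I y))))
    (S := IntermediateField.adjoin k (Set.range (yb I y)))
    (fun ij : Fin m × Fin (Module.finrank (KK I y) (FF I)) => b.repr (ev I (g ij.1)) ij.2)
  obtain ⟨q, hq⟩ := GNc_mem_R0 I y u u.2
  have hint' : ∀ ij : Fin m × Fin (Module.finrank (KK I y) (FF I)),
      ∃ n : MvPolynomial (Fin r) k, aeval (yb I y) n =
        aeval (yb I y) q * ((b.repr (ev I (g ij.1)) ij.2 : KK I y) : FF I) := by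
    intro ij
    obtain ⟨w, hw⟩ := hint ij
    obtain ⟨n, hn⟩ := GNc_mem_R0 I y w w.2
    refine ⟨n, ?_⟩
    rw [hn, hq]
    have h7 := congrArg (fun z : IntermediateField.adjoin k (Set.range (yb I y)) => (z : FF I)) hw
    exact h7
  choose n hn using hint'
  refine ⟨∑ j, d j + ∑ ij, (n ij).totalDegree, b, q, ?_, ?_, ?_⟩
  · intro i
    rw [mem_V, ← hp i]
    refine ⟨g (p i), ?_, rfl⟩
    calc (g (p i)).totalDegree ≤ d (p i) := hd _
      _ ≤ ∑ j, d j := Finset.single_le_sum (fun _ _ => Nat.zero_le _) (Finset.mem_univ _)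
      _ ≤ _ := Nat.le_add_right _ _
  · intro hq0
    rw [hq0, map_zero] at hq
    have : u = 0 := Subtype.ext hq.symm
    exact nonZeroDivisors.ne_zero hu this
  · intro t F hF
    obtain ⟨a, ha1, ha2⟩ := hg t F hF
    refine ⟨fun i => ∑ j, a j * n (j, i), ?_, ?_⟩
    · intro i
      refine (totalDegree_finsetSum _ _).trans (Finset.sup_le fun j _ => ?_)
      refine (totalDegree_mul _ _).trans ?_
      have h1 : (a j).totalDegree ≤ t := by
        rcases ha1 j with h0 | h0
        · rw [h0]; simp
        · omega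
      have h2 : (n (j, i)).totalDegree ≤ ∑ ij, (n ij).totalDegree :=
        Finset.single_le_sum (f := fun ij => (n ij).totalDegree)
          (fun _ _ => Nat.zero_le _) (Finset.mem_univ (j, i))
      omega
    · have h3 : ∀ j, aeval (yb I y) q * ev I (g j) =
          ∑ i, aeval (yb I y) (n (j, i)) * b i := by
        intro j
        conv_lhs => rw [← b.sum_repr (ev I (g j))]
        rw [Finset.mul_sum]
        refine Finset.sum_congr rfl (fun i _ => ?_)
        rw [hn (j, i), IntermediateField.smul_def, smul_eq_mul, mul_assoc]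
      rw [ha2, Finset.mul_sum]
      calc ∑ j, aeval (yb I y) q * (ev I (g j) * aeval (yb I y) (a j))
          = ∑ j, ∑ i, aeval (yb I y) (a j) * (aeval (yb I y) (n (j, i)) * b i) := by
            refine Finset.sum_congr rfl (fun j _ => ?_)
            rw [← Finset.mul_sum, ← h3 j]
            ring
        _ = ∑ i, ∑ j, aeval (yb I y) (a j) * (aeval (yb I y) (n (j, i)) * b i) :=
            Finset.sum_comm
        _ = _ := by
            refine Finset.sum_congr rfl (fun i _ => ?_)
            rw [map_sum, Finset.sum_mul]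
            refine Finset.sum_congr rfl (fun j _ => ?_)
            rw [map_mul]
            ring

end Pool.H76.NN
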