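import Pool.Agent.H76.NN.CharP

/-!
MODULE GNint (about 180 lines).  Paper 1.7: a GN tuple with integer coefficients in `[0, deg I]`.
`replace`: for `c : σ → k` let `Φ_c` be the characteristic polynomial of `ev (lf c)`; `Λ(c)` = coefficient of `Y_i^δ` in
`Φ_c(Y,0) = det(-∑ c_s M_s)` (`M_s` = matrix of multiplication by `xi_s`): a polynomial function of `c` of degree `≤ δ` in
each `c_s` (interpolation: its coefficients in `k(Y)` are in fact in `k[Y]`, or: evaluate on the grid of points).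
`Λ(y_i) ≠ 0` (coefficient of `Y_i^δ` in `(-Y_i)^δ`).  If `Λ(c) ≠ 0` the relation `Φ_c(ybar, ev (lf c)) = 0` is
`Λ(c) ybar_i^δ = ∑_{m<δ} ybar_i^m (..)` with the bracket of degree `≤ δ - m` in the other `ybar_l` and `ev (lf c)`.  So every
`a(ybar)`, `deg a ≤ t`, is `∑_{m<δ} ybar_i^m b_m(y'bar)`, `deg b_m ≤ t - m`, and `y' = update y i c` satisfies GN with the
generators `g_j * (lf (y i))^m`, degrees `d_j + m`; `FF I` is algebraic over `k(y'bar)`, so `y'bar` is independent.
-/

set_option autoImplicit false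

open MvPolynomial

namespace Pool.H76.NN

variable {k : Type} [Field k] [CharZero k] {σ : Type} [Fintype σ] [DecidableEq σ] {r : ℕ}

theorem GN.replace {I : Ideal (MvPolynomial σ k)} [I.IsPrime] {y : Fin r → σ → k} (h : GN I y)
    (i : Fin r) : ∃ Λ : MvPolynomial σ k, Λ ≠ 0 ∧ (∀ s, Λ.degreeOf s ≤ deg I) ∧
      ∀ c : σ → k, eval c Λ ≠ 0 → GN I (Function.update y i c) := by
  sorry

/-- Paper 1.7. -/
theorem exists_GN_int (I : Ideal (MvPolynomial σ k)) [I.IsPrime] :
    ∃ Y : Fin (dim I) → σ → ℕ, (∀ i s, Y i s ≤ deg I) ∧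
      GN I (fun i s => (Y i s : k)) := by
  sorry

end Pool.H76.NN
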