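import Mathlib

/-!
MODULE TowA (about 150 lines).  The tower step of paper 1.6 (pure linear algebra).
`F ≤ E` intermediate fields of `L / k`, `E = F(y)`, `y` transcendental over `F`, `V` a finite dimensional `k`-space.
Elementary proof (no PID theory).  Let `S = span_F V`, `N = dim_E (E S)`, `s_1..s_N ∈ S` a basis of `E S`; `q ∈ F[y]`,
`q ≠ 0`, with `q S ⊆ ⊕ F[y] s_i`.  Choose `C ⊂ ℕ`, `|C| = t+1`, with `q(c) ≠ 0` for `c ∈ C`.  The map
`S → F^{N (t+1)}`, `f ↦ (p_i(c))` where `q f = ∑ p_i(y) s_i`, is `F`-linear; if `dim_F S > N (t+1)` there is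
`f ≠ 0` in its kernel: `q f = ∏_{c ∈ C} (y - c) * u`, `u ∈ F[y] S`.  Put `w = u / q`; with `a q + b ∏ (y-c) = 1` (coprime)
`w = a u + b f ∈ F[y] S` and `f = ∏ (y - c) w`: contradiction to `h`.
-/

set_option autoImplicit false

namespace Pool.H76.NN

open Polynomial

private theorem TowA_frac {k L : Type} [Field k] [Field L] [Algebra k L]
    (F E : IntermediateField k L) (y : L) (hE : E = F ⊔ IntermediateField.adjoin k {y}) (x : L) :
    x ∈ E ↔ ∃ r s : F[X], x = aeval y r / aeval y s := by
  have h1 : E = IntermediateField.restrictScalars k (IntermediateField.adjoin F {y}) := by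
    rw [IntermediateField.restrictScalars_adjoin, IntermediateField.adjoin_union,
      IntermediateField.adjoin_self, hE]
  rw [h1, IntermediateField.mem_restrictScalars, IntermediateField.mem_adjoin_simple_iff]

/-- A common denominator. -/
private theorem TowA_den {k L : Type} [Field k] [Field L] [Algebra k L]
    (F E : IntermediateField k L) (y : L) (hE : E = F ⊔ IntermediateField.adjoin k {y})
    (hy : Function.Injective (aeval y : F[X] →ₐ[F] L)) {α : Type} [DecidableEq α] (A : Finset α)
    (x : α → L) (hx : ∀ a ∈ A, x a ∈ E) :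
    ∃ q : F[X], q ≠ 0 ∧ ∀ a ∈ A, ∃ r : F[X], aeval y q * x a = aeval y r := by
  induction A using Finset.induction_on with
  | empty => exact ⟨1, one_ne_zero, fun a ha => absurd ha (Finset.notMem_empty a)⟩
  | insert a A _ ih =>
    obtain ⟨q, hq, h1⟩ := ih (fun b hb => hx b (Finset.mem_insert_of_mem hb))
    obtain ⟨r, s, h2⟩ := (TowA_frac F E y hE (x a)).1 (hx a (Finset.mem_insert_self a A))
    obtain ⟨r', s', hs', h3⟩ : ∃ r' s' : F[X], s' ≠ 0 ∧ aeval y s' * x a = aeval y r' := by
      by_cases hs : s = 0
      · refine ⟨0, 1, one_ne_zero, ?_⟩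
        rw [h2, hs, map_zero, div_zero, mul_zero]
      · refine ⟨r, s, hs, ?_⟩
        have h4 : aeval y s ≠ 0 := fun h => hs (hy (by rw [h, map_zero]))
        rw [h2, mul_div_cancel₀ _ h4]
    refine ⟨q * s', mul_ne_zero hq hs', ?_⟩
    intro b hb
    rcases Finset.mem_insert.1 hb with rfl | hb
    · refine ⟨q * r', ?_⟩
      rw [map_mul, map_mul, mul_assoc, h3]
    · obtain ⟨t, ht⟩ := h1 b hb
      refine ⟨s' * t, ?_⟩
      rw [map_mul, map_mul, ← ht]
      ring

theorem tower_step {k L : Type} [Field k] [CharZero k] [Field L] [Algebra k L]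
    (F E : IntermediateField k L) (y : L) (hE : E = F ⊔ IntermediateField.adjoin k {y})
    (hy : Transcendental F y) (V : Submodule k L) [Module.Finite k V] (t : ℕ)
    (h : ∀ C : Finset ℕ, C.card = t + 1 → ∀ f ∈ Submodule.span F (V : Set L),
      ∀ w ∈ Submodule.span (Algebra.adjoin F {y}) (V : Set L),
      f = (∏ c ∈ C, (y - (c : L))) * w → f = 0) :
    Module.finrank F (Submodule.span F (V : Set L)) ≤
      (t + 1) * Module.finrank E (Submodule.span E (V : Set L)) := by
  classical
  have hinj : Function.Injective (aeval y : F[X] →ₐ[F] L) := transcendental_iff_injective.1 hy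
  have hmemE : ∀ p : F[X], aeval y p ∈ E := by
    intro p
    rw [TowA_frac F E y hE]
    exact ⟨p, 1, by rw [map_one, div_one]⟩
  obtain ⟨T, hT⟩ := Module.Finite.iff_fg.1 (inferInstance : Module.Finite k V)
  have hTV : (T : Set L) ⊆ (V : Set L) := by
    intro x hx
    rw [← hT]
    exact Submodule.subset_span hx
  have hVT : ∀ (K : Type) [Field K] [Algebra k K] [Algebra K L] [IsScalarTower k K L],
      Submodule.span K (V : Set L) = Submodule.span K (T : Set L) := by
    intro K _ _ _ _
    apply le_antisymm
    · rw [Submodule.span_le, ← hT]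
      exact Submodule.span_subset_span k K (T : Set L)
    · exact Submodule.span_mono hTV
  have hSF := hVT F
  have hSE := hVT E
  obtain ⟨b, hbT, hbspan, hbli⟩ := exists_linearIndependent E (T : Set L)
  have hbfin : b.Finite := T.finite_toSet.subset hbT
  have : Fintype b := hbfin.fintype
  have hN : Module.finrank E (Submodule.span E (V : Set L)) = Fintype.card b := by
    rw [hSE, ← hbspan, finrank_span_set_eq_card hbli, Set.toFinset_card]
  -- the map `p ↦ ∑ p(y) s`
  let Θ : (b → F[X]) →ₗ[F] L :=
    { toFun := fun p => ∑ s : b, aeval y (p s) * (s : L)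
      map_add' := by
        intro p p'
        simp only [Pi.add_apply, map_add, add_mul, Finset.sum_add_distrib]
      map_smul' := by
        intro a p
        simp only [Pi.smul_apply, map_smul, smul_mul_assoc, Finset.smul_sum, RingHom.id_apply] }
  have hΘ : ∀ p, Θ p = ∑ s : b, aeval y (p s) * (s : L) := fun p => rfl
  have hΘinj : Function.Injective Θ := by
    rw [injective_iff_map_eq_zero]
    intro p hp
    rw [hΘ] at hp
    have h1 := Fintype.linearIndependent_iff.1 hbli (fun s => (⟨aeval y (p s), hmemE _⟩ : E)) hp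
    funext s
    have h2 := congrArg (fun z : E => (z : L)) (h1 s)
    exact hinj (by
      rw [Pi.zero_apply, map_zero]
      exact h2)
  -- coefficients of the elements of `T`
  have hcoef : ∀ v ∈ T, ∃ c : b → E, v = ∑ s : b, ((c s : E) : L) * (s : L) := by
    intro v hv
    have h1 : v ∈ Submodule.span E b := by
      rw [hbspan]
      exact Submodule.subset_span hv
    have h2 : b = Set.range (Subtype.val : b → L) := Subtype.range_val.symm
    rw [h2, Submodule.mem_span_range_iff_exists_fun] at h1
    obtain ⟨c, hc⟩ := h1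
    exact ⟨c, hc.symm⟩
  choose! c hc using hcoef
  obtain ⟨q, hq, hqr⟩ := TowA_den F E y hE hinj (T ×ˢ (Finset.univ : Finset b))
    (fun a => ((c a.1 a.2 : E) : L)) (fun a _ => (c a.1 a.2).2)
  have hqT : ∀ v ∈ T, aeval y q * v ∈ LinearMap.range Θ := by
    intro v hv
    choose r hr using fun s : b => hqr (v, s) (Finset.mem_product.2 ⟨hv, Finset.mem_univ s⟩)
    refine ⟨r, ?_⟩
    rw [hΘ]
    conv_rhs => rw [hc v hv, Finset.mul_sum]
    refine Finset.sum_congr rfl fun s _ => ?_
    rw [← hr s, mul_assoc]
  let μ : L →ₗ[F] L := LinearMap.mulLeft F (aeval y q)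
  have hq0 : aeval y q ≠ 0 := fun h0 => hq (hinj (by rw [h0, map_zero]))
  have hμ : Function.Injective μ := by
    intro a a' haa
    exact mul_left_cancel₀ hq0 haa
  set S : Submodule F L := Submodule.span F (V : Set L) with hS
  have hqS : S.map μ ≤ LinearMap.range Θ := by
    rw [hSF, Submodule.map_span, Submodule.span_le]
    rintro _ ⟨v, hv, rfl⟩
    exact hqT v hv
  let S' : Submodule F (b → F[X]) := (S.map μ).comap Θ
  have hS' : S'.map Θ = S.map μ := by
    rw [Submodule.map_comap_eq]
    exact inf_eq_right.2 hqS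
  have hdim : Module.finrank F S = Module.finrank F S' := by
    rw [LinearEquiv.finrank_eq (Submodule.equivMapOfInjective μ hμ S),
      LinearEquiv.finrank_eq (Submodule.equivMapOfInjective Θ hΘinj S'), hS']
  -- evaluation points
  have hroots : ({n : ℕ | q.eval (n : F) = 0}).Finite := by
    have h1 : {n : ℕ | q.eval (n : F) = 0} = (fun n : ℕ => (n : F)) ⁻¹' (q.roots.toFinset : Set F) := by
      ext n
      rw [Set.mem_ofPred_eq, Set.mem_preimage, Finset.mem_coe, Multiset.mem_toFinset,
        Polynomial.mem_roots hq, Polynomial.IsRoot.def]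
    rw [h1]
    have : CharZero F := charZero_of_injective_algebraMap (algebraMap k F).injective
    exact (Finset.finite_toSet _).preimage (Nat.cast_injective.injOn)
  obtain ⟨Cs, hC1, hC2⟩ := (hroots.infinite_compl).exists_subset_card_eq (t + 1)
  have hCq : ∀ n ∈ Cs, q.eval (n : F) ≠ 0 := fun n hn => hC1 hn
  have hchF : CharZero F := charZero_of_injective_algebraMap (algebraMap k F).injective
  let ψ : S' →ₗ[F] (b × Cs → F) :=
    { toFun := fun p a => ((p : b → F[X]) a.1).eval ((a.2 : ℕ) : F)
      map_add' := by
        intro p p'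
        funext a
        simp
      map_smul' := by
        intro a p
        funext a'
        simp }
  have hψ : Function.Injective ψ := by
    rw [injective_iff_map_eq_zero]
    rintro ⟨p, hp⟩ hp0
    obtain ⟨f, hf, hfp⟩ := hp
    have hfp' : aeval y q * f = Θ p := hfp
    -- divisibility
    set P : F[X] := ∏ n ∈ Cs, (X - C ((n : ℕ) : F)) with hP
    have hdvd : ∀ s, P ∣ p s := by
      intro s
      refine Finset.prod_dvd_of_coprime ?_ ?_
      · exact (Polynomial.pairwise_coprime_X_sub_C (K := F) (s := fun n : ℕ => (n : F))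
          Nat.cast_injective).set_pairwise _
      · intro n hn
        rw [Polynomial.dvd_iff_isRoot, Polynomial.IsRoot.def]
        exact congrFun hp0 (s, ⟨n, hn⟩)
    choose p' hp' using hdvd
    have hcop : IsCoprime q P := by
      apply IsCoprime.prod_right
      intro n hn
      apply IsCoprime.symm
      rw [(Polynomial.irreducible_X_sub_C ((n : ℕ) : F)).coprime_iff_not_dvd,
        Polynomial.dvd_iff_isRoot, Polynomial.IsRoot.def]
      exact hCq n hn
    obtain ⟨a, a', haa⟩ := hcop
    have haa' : aeval y a * aeval y q + aeval y a' * aeval y P = 1 := by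
      rw [← map_mul, ← map_mul, ← map_add, haa, map_one]
    have hPy : aeval y P = ∏ n ∈ Cs, (y - ((n : ℕ) : L)) := by
      rw [hP, map_prod]
      refine Finset.prod_congr rfl fun n _ => ?_
      rw [map_sub, aeval_X, aeval_C, map_natCast]
    have hΘp : Θ p = aeval y P * Θ p' := by
      rw [hΘ, hΘ, Finset.mul_sum]
      refine Finset.sum_congr rfl fun s _ => ?_
      rw [hp' s, map_mul, mul_assoc]
    have hVs : ∀ v ∈ V, ∀ r : F[X], aeval y r * v ∈
        Submodule.span (Algebra.adjoin F {y}) (V : Set L) := by
      intro v hv r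
      have h1 : aeval y r * v =
          (⟨aeval y r, Polynomial.aeval_mem_adjoin_singleton F y⟩ : Algebra.adjoin F {y}) • v := rfl
      rw [h1]
      exact Submodule.smul_mem _ _ (Submodule.subset_span hv)
    have hu : ∀ r : F[X], aeval y r * Θ p' ∈
        Submodule.span (Algebra.adjoin F {y}) (V : Set L) := by
      intro r
      rw [hΘ, Finset.mul_sum]
      refine Submodule.sum_mem _ fun s _ => ?_
      rw [← mul_assoc, ← map_mul]
      exact hVs s (hTV (hbT s.2)) _
    have hf' : ∀ r : F[X], aeval y r * f ∈
        Submodule.span (Algebra.adjoin F {y}) (V : Set L) := by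
      intro r
      have h1 : f ∈ Submodule.span (Algebra.adjoin F {y}) (V : Set L) :=
        Submodule.span_subset_span F (Algebra.adjoin F {y}) (V : Set L) hf
      have h2 : aeval y r * f =
          (⟨aeval y r, Polynomial.aeval_mem_adjoin_singleton F y⟩ : Algebra.adjoin F {y}) • f := rfl
      rw [h2]
      exact Submodule.smul_mem _ _ h1
    have hf0 : f = 0 := by
      refine h Cs hC2 f hf (aeval y a * Θ p' + aeval y a' * f)
        (Submodule.add_mem _ (hu a) (hf' a')) ?_
      rw [← hPy, mul_add]
      calc f = (aeval y a * aeval y q + aeval y a' * aeval y P) * f := by rw [haa', one_mul]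
        _ = aeval y a * (aeval y q * f) + aeval y P * (aeval y a' * f) := by ring
        _ = aeval y P * (aeval y a * Θ p') + aeval y P * (aeval y a' * f) := by
          rw [hfp', hΘp]
          ring
    have hΘ0 : Θ p = 0 := by rw [← hfp', hf0, mul_zero]
    exact Subtype.ext (hΘinj (hΘ0.trans (map_zero Θ).symm))
  rw [hdim, hN]
  refine (LinearMap.finrank_le_finrank_of_injective hψ).trans ?_
  rw [Module.finrank_fintype_fun_eq_card, Fintype.card_prod, Fintype.card_coe, hC2, mul_comm]

end Pool.H76.NN
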