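import Pool.Agent.H76.NN.NormA
import Pool.Agent.H76.NN.TowA

/-!
MODULE HUp (about 150 lines).  Paper 1.6.  Use `tower_step` for `F = K_{j+1}`, `E = K_j`, `y = ybar_j`, where
`K_j = adjoin k {ybar_i : j ≤ i}` (`K_0 = KK I y`, `K_r = ⊥`), `V = V I t`.
Verification of its hypothesis `h`: `f = ∏_{c ∈ C} (ybar_j - c) w`, `f ∈ span_F V_t`, `w ∈ F[ybar_j] V_t`.  Multiply by a
nonzero `u ∈ k[ybar_i : i > j]`: `u f ∈ Fil I y (Pi.single j 1) t`, `u w ∈ k[ybar] V_t`.  Norms: `N(u f) = N_1(ybar)`,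
`deg_{Y_j} N_1 ≤ δ t` (norm_deg), `N(u w) = N_2(ybar)`, `N_1 = (∏ (Y_j - c))^δ N_2`, so `N_2 = 0`, `w = 0`, `f = 0`.
-/

set_option autoImplicit false

open MvPolynomial

namespace Pool.H76.NN

variable {k : Type} [Field k] [CharZero k] {σ : Type} [Fintype σ] [DecidableEq σ] {r : ℕ}

/-- One step (paper 1.6): `j : Fin r`. -/
theorem GN.tower_aux {I : Ideal (MvPolynomial σ k)} [I.IsPrime] {y : Fin r → σ → k} (h : GN I y)
    (t : ℕ) (j : Fin r) :
    Module.finrank (IntermediateField.adjoin k (yb I y '' {i | j < i}))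
      (Submodule.span (IntermediateField.adjoin k (yb I y '' {i | j < i})) (V I t : Set (FF I))) ≤
    (t + 1) * Module.finrank (IntermediateField.adjoin k (yb I y '' {i | j ≤ i}))
      (Submodule.span (IntermediateField.adjoin k (yb I y '' {i | j ≤ i})) (V I t : Set (FF I))) := by
  sorry

/-- Paper 1.6. -/
theorem GN.hf_le_nu {I : Ideal (MvPolynomial σ k)} [I.IsPrime] {y : Fin r → σ → k} (h : GN I y)
    (t : ℕ) : hf I t ≤ (t + 1) ^ r * nu I y t := by
  sorry

theorem GN.nu_le {I : Ideal (MvPolynomial σ k)} [I.IsPrime] {y : Fin r → σ → k} (h : GN I y)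
    (t : ℕ) : nu I y t ≤ deg I := by
  sorry

theorem hf_le_deg (I : Ideal (MvPolynomial σ k)) [I.IsPrime] (t : ℕ) :
    hf I t ≤ (t + 1) ^ dim I * deg I := by
  sorry

end Pool.H76.NN
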