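import Mathlib

/-!
MODULE WDeg.  Weighted total degrees over a field (`MvPolynomial.weightedTotalDegree w`, weights in
`ℕ`).  `weightedTotalDegree w 0 = 0`.  The weighted degree of `p` is the degree in the new variable `T`
of `p (X_i * T ^ (w i))`; the coefficient of `T ^ n` is the weighted homogeneous component of degree `n`.
-/

set_option autoImplicit false

open MvPolynomial

namespace Pool.H76.NN

variable {k : Type} [Field k] {τ : Type} [Fintype τ]

/-- The substitution `X_i ↦ X_i * T ^ (w i)`. -/
private noncomputable def phiW (w : τ → ℕ) :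
    MvPolynomial τ k →+* Polynomial (MvPolynomial τ k) :=
  eval₂Hom ((Polynomial.C : MvPolynomial τ k →+* Polynomial (MvPolynomial τ k)).comp
    (C : k →+* MvPolynomial τ k)) fun i => Polynomial.C (X i) * Polynomial.X ^ w i

omit [Fintype τ] in
private theorem phiW_monomial (w : τ → ℕ) (m : τ →₀ ℕ) (c : k) :
    phiW w (monomial m c) = Polynomial.monomial (Finsupp.weight w m) (monomial m c) := by
  unfold phiW
  rw [coe_eval₂Hom, eval₂_monomial, ← Polynomial.C_mul_X_pow_eq_monomial, RingHom.comp_apply,
    monomial_eq, Finsupp.weight_apply, Finsupp.prod, Finsupp.prod, Finsupp.sum,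
    ← Finset.prod_pow_eq_pow_sum, map_mul, map_prod, mul_assoc, ← Finset.prod_mul_distrib]
  congr 1
  apply Finset.prod_congr rfl
  intro i _
  rw [mul_pow, map_pow, ← pow_mul, smul_eq_mul, mul_comm (w i)]

omit [Fintype τ] in
private theorem phiW_coeff (w : τ → ℕ) (p : MvPolynomial τ k) (n : ℕ) :
    (phiW w p).coeff n = weightedHomogeneousComponent w n p := by
  classical
  induction p using MvPolynomial.induction_on' with
  | monomial m c =>
    rw [phiW_monomial, Polynomial.coeff_monomial]
    ext d
    rw [coeff_weightedHomogeneousComponent]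
    by_cases h : Finsupp.weight w m = n
    · rw [if_pos h]
      by_cases h1 : Finsupp.weight w d = n
      · rw [if_pos h1]
      · rw [if_neg h1, coeff_monomial, if_neg]
        rintro rfl
        exact h1 h
    · rw [if_neg h, coeff_zero]
      by_cases h1 : Finsupp.weight w d = n
      · rw [if_pos h1, coeff_monomial, if_neg]
        rintro rfl
        exact h h1
      · rw [if_neg h1]
  | add p q hp hq =>
    rw [map_add, Polynomial.coeff_add, hp, hq, map_add]

omit [Fintype τ] in
private theorem phiW_ne (w : τ → ℕ) (p : MvPolynomial τ k) (hp : p ≠ 0) :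
    (phiW w p).coeff (weightedTotalDegree w p) ≠ 0 := by
  classical
  obtain ⟨m, hm, h⟩ := Finset.exists_mem_eq_sup p.support
    (Finset.nonempty_iff_ne_empty.2 fun h => hp (support_eq_empty.1 h)) fun s => Finsupp.weight w s
  change weightedTotalDegree w p = _ at h
  rw [phiW_coeff]
  intro h0
  have h1 : coeff m (weightedHomogeneousComponent w (weightedTotalDegree w p) p) = 0 := by
    rw [h0, coeff_zero]
  rw [coeff_weightedHomogeneousComponent, if_pos h.symm] at h1
  exact mem_support_iff.1 hm h1

omit [Fintype τ] in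
private theorem natDegree_phiW (w : τ → ℕ) (p : MvPolynomial τ k) :
    (phiW w p).natDegree = weightedTotalDegree w p := by
  by_cases hp : p = 0
  · subst hp
    rw [map_zero, Polynomial.natDegree_zero, weightedTotalDegree_zero]
    rfl
  apply le_antisymm
  · rw [Polynomial.natDegree_le_iff_coeff_eq_zero]
    intro n hn
    rw [phiW_coeff]
    exact weightedHomogeneousComponent_eq_zero n p hn
  · exact Polynomial.le_natDegree_of_ne_zero (phiW_ne w p hp)

omit [Fintype τ] in
private theorem phiW_ne_zero (w : τ → ℕ) (p : MvPolynomial τ k) (hp : p ≠ 0) : phiW w p ≠ 0 := by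
  intro h
  apply phiW_ne w p hp
  rw [h, Polynomial.coeff_zero]

theorem wdeg_mul (w : τ → ℕ) (p q : MvPolynomial τ k) (hp : p ≠ 0) (hq : q ≠ 0) :
    weightedTotalDegree w (p * q) = weightedTotalDegree w p + weightedTotalDegree w q := by
  rw [← natDegree_phiW, ← natDegree_phiW, ← natDegree_phiW, map_mul,
    Polynomial.natDegree_mul (phiW_ne_zero w p hp) (phiW_ne_zero w q hq)]

theorem wdeg_pow (w : τ → ℕ) (p : MvPolynomial τ k) (m : ℕ) :
    weightedTotalDegree w (p ^ m) = m * weightedTotalDegree w p := by
  rw [← natDegree_phiW, ← natDegree_phiW, map_pow, Polynomial.natDegree_pow]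

theorem wdeg_mul_le (w : τ → ℕ) (p q : MvPolynomial τ k) :
    weightedTotalDegree w (p * q) ≤ weightedTotalDegree w p + weightedTotalDegree w q := by
  rw [← natDegree_phiW, ← natDegree_phiW, ← natDegree_phiW, map_mul]
  exact Polynomial.natDegree_mul_le

theorem wdeg_add_le (w : τ → ℕ) (p q : MvPolynomial τ k) :
    weightedTotalDegree w (p + q) ≤ max (weightedTotalDegree w p) (weightedTotalDegree w q) := by
  rw [← natDegree_phiW, ← natDegree_phiW, ← natDegree_phiW, map_add]
  exact Polynomial.natDegree_add_le _ _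

theorem wdeg_smul_le (w : τ → ℕ) (c : k) (q : MvPolynomial τ k) :
    weightedTotalDegree w (c • q) ≤ weightedTotalDegree w q := by
  unfold weightedTotalDegree
  apply Finset.sup_mono
  exact support_smul

theorem wdeg_sum_le {ι : Type} (w : τ → ℕ) (s : Finset ι) (p : ι → MvPolynomial τ k) (D : ℕ)
    (h : ∀ i ∈ s, weightedTotalDegree w (p i) ≤ D) :
    weightedTotalDegree w (∑ i ∈ s, p i) ≤ D := by
  classical
  induction s using Finset.induction_on with
  | empty =>
    rw [Finset.sum_empty, weightedTotalDegree_zero]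
    exact Nat.zero_le _
  | insert a s ha ih =>
    rw [Finset.sum_insert ha]
    exact (wdeg_add_le w _ _).trans (max_le (h a (Finset.mem_insert_self _ _))
      (ih fun i hi => h i (Finset.mem_insert_of_mem hi)))

theorem wdeg_det_le (w : τ → ℕ) {d : ℕ} (M : Matrix (Fin d) (Fin d) (MvPolynomial τ k)) (D : ℕ)
    (h : ∀ i j, weightedTotalDegree w (M i j) ≤ D) : weightedTotalDegree w M.det ≤ d * D := by
  rw [Matrix.det_apply]
  apply wdeg_sum_le
  intro σ _
  have h1 : weightedTotalDegree w (∏ i, M (σ i) i) ≤ d * D := by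
    rw [← natDegree_phiW, map_prod]
    refine (Polynomial.natDegree_prod_le _ _).trans ?_
    calc ∑ i, (phiW w (M (σ i) i)).natDegree ≤ ∑ _i : Fin d, D :=
          Finset.sum_le_sum fun i _ => by
            rw [natDegree_phiW]
            exact h _ _
      _ = d * D := by rw [Finset.sum_const, Finset.card_univ, Fintype.card_fin, smul_eq_mul]
  rcases Int.units_eq_one_or (Equiv.Perm.sign σ) with h2 | h2
  · rw [h2, one_smul]
    exact h1
  · rw [h2, Units.neg_smul, one_smul]
    have h3 : -(∏ i, M (σ i) i) = (-1 : k) • ∏ i, M (σ i) i := by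
      rw [neg_smul, one_smul]
    rw [h3]
    exact (wdeg_smul_le w _ _).trans h1

theorem wdeg_le_totalDegree (w : τ → ℕ) (hw : ∀ i, w i ≤ 1) (p : MvPolynomial τ k) :
    weightedTotalDegree w p ≤ p.totalDegree := by
  unfold weightedTotalDegree totalDegree
  apply Finset.sup_mono_fun
  intro m _
  rw [Finsupp.weight_apply]
  unfold Finsupp.sum
  apply Finset.sum_le_sum
  intro i _
  change m i * w i ≤ m i
  exact (Nat.mul_le_mul_left _ (hw i)).trans (Nat.mul_one _).le

/-- A nonzero polynomial with all partial degrees `≤ δ` does not vanish at some point with coordinates in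
`{0,..,δ}`. -/
theorem exists_nat_point [CharZero k] {δ : ℕ} (P : MvPolynomial τ k) (hP : P ≠ 0)
    (hd : ∀ s, P.degreeOf s ≤ δ) :
    ∃ c : τ → ℕ, (∀ s, c s ≤ δ) ∧ eval (fun s => (c s : k)) P ≠ 0 := by
  classical
  by_contra hcon
  push Not at hcon
  apply hP
  apply eq_zero_of_eval_zero_at_prod_finset P
    (fun _ => (Finset.range (δ + 1)).image fun n : ℕ => (n : k))
  · intro i
    rw [Finset.card_image_of_injective _ Nat.cast_injective, Finset.card_range]
    exact Nat.lt_succ_of_le (hd i)
  · intro x hx
    have h1 : ∀ i, ∃ n : ℕ, n ≤ δ ∧ (n : k) = x i := by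
      intro i
      obtain ⟨n, hn, h⟩ := Finset.mem_image.1 (hx i)
      exact ⟨n, Nat.lt_succ_iff.1 (Finset.mem_range.1 hn), h⟩
    choose c hc1 hc2 using h1
    have h2 := hcon c hc1
    have h3 : (fun s => (c s : k)) = x := funext hc2
    rwa [h3] at h2

end Pool.H76.NN
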