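import Pool.Agent.H76.NN.AsyB
import Pool.Agent.H76.NN.WDeg

/-!
MODULE NormA (about 150 lines).  Paper 1.5: degrees of norms.  `w : Fin r → ℕ` with values in `{0,1}`
(`w = 1`: total degree; `w = Pi.single j 1`: degree in `Y_j`).  `Fil I y w D` is the `k`-span of the elements
`a(ybar) v`, `v ∈ V I t`, `wdeg a + t ≤ D`.
Proof of `norm_deg`.  `Fil D * Fil D' ⊆ Fil (D + D')`; `b_i ∈ V I c` (GN.basis) so `f^m b_i ∈ Fil (m D + c)`, and by
GN.basis `q(ybar) f^m b_i = ∑ m_{il}(ybar) b_l` with `wdeg m_{il} ≤ m D + 2c`.  Determinants (norm = determinant of the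
multiplication matrix, `N(f) = N(ybar)` by GN.norm_poly; elements of `Fil` are integral over `k[ybar]`):
`q^δ N^m = det (m_{il})`, so `m wdeg N ≤ δ (m D + 2c)` for all `m`, hence `wdeg N ≤ δ D`.
-/

set_option autoImplicit false

open MvPolynomial

namespace Pool.H76.NN

variable {k : Type} [Field k] [CharZero k] {σ : Type} [Fintype σ] [DecidableEq σ] {r : ℕ}

/-- The filtration of paper 1.5. -/
noncomputable def Fil (I : Ideal (MvPolynomial σ k)) (y : Fin r → σ → k) (w : Fin r → ℕ) (D : ℕ) :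
    Submodule k (FF I) :=
  Submodule.span k {f | ∃ (a : MvPolynomial (Fin r) k) (t : ℕ) (v : FF I), v ∈ V I t ∧
    weightedTotalDegree w a + t ≤ D ∧ f = aeval (yb I y) a * v}

omit [CharZero k] in
private theorem NormA_wdeg_one (w : Fin r → ℕ) :
    weightedTotalDegree w (1 : MvPolynomial (Fin r) k) = 0 := by
  have h := wdeg_pow w (0 : MvPolynomial (Fin r) k) 0
  rwa [pow_zero, zero_mul] at h

omit [CharZero k] [DecidableEq σ] in
private theorem NormA_gen (I : Ideal (MvPolynomial σ k)) (y : Fin r → σ → k) (w : Fin r → ℕ)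
    {D t : ℕ} (a : MvPolynomial (Fin r) k) {v : FF I} (hv : v ∈ V I t)
    (h : weightedTotalDegree w a + t ≤ D) : aeval (yb I y) a * v ∈ Fil I y w D :=
  Submodule.subset_span ⟨a, t, v, hv, h, rfl⟩

theorem mem_Fil_of_V (I : Ideal (MvPolynomial σ k)) (y : Fin r → σ → k) (w : Fin r → ℕ) {D : ℕ}
    {v : FF I} (hv : v ∈ V I D) : v ∈ Fil I y w D := by
  have h := NormA_gen I y w 1 hv (by rw [NormA_wdeg_one, zero_add])
  rwa [map_one, one_mul] at h

theorem mem_Fil_mul (I : Ideal (MvPolynomial σ k)) (y : Fin r → σ → k) (w : Fin r → ℕ) {D E : ℕ}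
    {f g : FF I} (hf : f ∈ Fil I y w D) (hg : g ∈ Fil I y w E) : f * g ∈ Fil I y w (D + E) := by
  have h1 : f * g ∈ Fil I y w D * Fil I y w E := Submodule.mul_mem_mul hf hg
  have h2 : Fil I y w D * Fil I y w E ≤ Fil I y w (D + E) := by
    unfold Fil
    rw [Submodule.span_mul_span, Submodule.span_le]
    rintro _ ⟨_, ⟨a, t, v, hv, h3, rfl⟩, _, ⟨a', t', v', hv', h4, rfl⟩, rfl⟩
    have h5 : (aeval (yb I y) a * v) * (aeval (yb I y) a' * v') =
        aeval (yb I y) (a * a') * (v * v') := by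
      rw [map_mul]
      ring
    beta_reduce
    rw [h5]
    refine NormA_gen I y w _ (mul_mem_V I hv hv') ?_
    have := wdeg_mul_le w a a'
    omega
  exact h2 h1

theorem aeval_mem_Fil (I : Ideal (MvPolynomial σ k)) (y : Fin r → σ → k) (w : Fin r → ℕ) {D : ℕ}
    (a : MvPolynomial (Fin r) k) (ha : weightedTotalDegree w a ≤ D) :
    aeval (yb I y) a ∈ Fil I y w D := by
  have h := NormA_gen I y w (D := D) a (one_mem_V I 0) (by rwa [add_zero])
  rwa [mul_one] at h

private theorem NormA_pow (I : Ideal (MvPolynomial σ k)) (y : Fin r → σ → k) (w : Fin r → ℕ)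
    {D : ℕ} {f : FF I} (hf : f ∈ Fil I y w D) (m : ℕ) : f ^ m ∈ Fil I y w (m * D) := by
  induction m with
  | zero =>
    rw [pow_zero, zero_mul]
    exact mem_Fil_of_V I y w (one_mem_V I 0)
  | succ m ih =>
    rw [pow_succ, add_mul, one_mul]
    exact mem_Fil_mul I y w ih hf

private theorem NormA_int {I : Ideal (MvPolynomial σ k)} [I.IsPrime] {y : Fin r → σ → k}
    (h : GN I y) (w : Fin r → ℕ) {D : ℕ} {f : FF I} (hf : f ∈ Fil I y w D) :
    IsIntegral (Algebra.adjoin k (Set.range (yb I y))) f := by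
  have hpoly : ∀ a : MvPolynomial (Fin r) k, aeval (yb I y) a ∈
      Algebra.adjoin k (Set.range (yb I y)) := by
    intro a
    rw [Algebra.adjoin_range_eq_range_aeval k (yb I y)]
    exact ⟨a, rfl⟩
  induction hf using Submodule.span_induction with
  | mem x hx =>
    obtain ⟨a, t, v, hv, -, rfl⟩ := hx
    obtain ⟨F, -, rfl⟩ := (mem_V I t v).1 hv
    refine IsIntegral.mul ?_ (h.integral F)
    exact isIntegral_algebraMap (R := Algebra.adjoin k (Set.range (yb I y)))
      (x := ⟨aeval (yb I y) a, hpoly a⟩)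
  | zero => exact isIntegral_zero
  | add x x' _ _ hx hx' => exact hx.add hx'
  | smul a x _ hx =>
    rw [Algebra.smul_def]
    refine IsIntegral.mul ?_ hx
    exact isIntegral_algebraMap (R := Algebra.adjoin k (Set.range (yb I y)))
      (x := algebraMap k _ a)

private theorem NormA_core {I : Ideal (MvPolynomial σ k)} [I.IsPrime] {y : Fin r → σ → k}
    (h : GN I y) (w : Fin r → ℕ) (hw : ∀ i, w i ≤ 1) {D : ℕ} {f : FF I} (hf : f ∈ Fil I y w D)
    {N : MvPolynomial (Fin r) k}
    (hN : ((Algebra.norm (KK I y) f : KK I y) : FF I) = aeval (yb I y) N) (hN0 : N ≠ 0)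
    {c δ : ℕ} (b : Module.Basis (Fin δ) (KK I y) (FF I)) (q : MvPolynomial (Fin r) k)
    (hb : ∀ i, b i ∈ V I c) (hq : q ≠ 0)
    (hbas : ∀ (t : ℕ) (F : MvPolynomial σ k), F.totalDegree ≤ t →
        ∃ a : Fin δ → MvPolynomial (Fin r) k, (∀ i, (a i).totalDegree ≤ t + c) ∧
          aeval (yb I y) q * ev I F = ∑ i, aeval (yb I y) (a i) * b i) :
    weightedTotalDegree w N ≤ δ * D := by
  classical
  have hδ : Module.finrank (KK I y) (FF I) = δ := by
    rw [Module.finrank_eq_card_basis b, Fintype.card_fin]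
  -- values in `k(ybar)`
  have hyk : ∀ p : MvPolynomial (Fin r) k,
      ((aeval (yk I y) p : KK I y) : FF I) = aeval (yb I y) p := by
    intro p
    have h1 : aeval (yb I y) p = algebraMap (KK I y) (FF I) (aeval (yk I y) p) := by
      rw [← aeval_algebraMap_apply]
      rfl
    rw [h1]
    rfl
  have hinj : Function.Injective (aeval (yk I y) : MvPolynomial (Fin r) k →ₐ[k] KK I y) := by
    intro p p' hpp
    apply h.indep
    rw [← hyk, ← hyk, hpp]
  -- expansion of the elements of the filtration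
  have hexp : ∀ (E : ℕ) (g : FF I), g ∈ Fil I y w E →
      ∃ a : Fin δ → MvPolynomial (Fin r) k, (∀ i, weightedTotalDegree w (a i) ≤ E + c) ∧
        aeval (yb I y) q * g = ∑ i, aeval (yb I y) (a i) * b i := by
    intro E g hg
    induction hg using Submodule.span_induction with
    | mem x hx =>
      obtain ⟨a, t, v, hv, hE, rfl⟩ := hx
      obtain ⟨F, hF, rfl⟩ := (mem_V I t v).1 hv
      obtain ⟨a', ha', h1⟩ := hbas t F hF
      refine ⟨fun i => a * a' i, ?_, ?_⟩
      · intro i
        have h2 := wdeg_mul_le w a (a' i)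
        have h3 := wdeg_le_totalDegree w hw (a' i)
        have h4 := ha' i
        beta_reduce
        omega
      · rw [mul_left_comm, h1, Finset.mul_sum]
        refine Finset.sum_congr rfl fun i _ => ?_
        rw [map_mul, mul_assoc]
    | zero =>
      refine ⟨fun _ => 0, fun _ => ?_, ?_⟩
      · rw [weightedTotalDegree_zero]
        exact Nat.zero_le _
      · rw [mul_zero]
        symm
        refine Finset.sum_eq_zero fun i _ => ?_
        rw [map_zero, zero_mul]
    | add x x' _ _ hx hx' =>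
      obtain ⟨a, ha, h1⟩ := hx
      obtain ⟨a', ha', h1'⟩ := hx'
      refine ⟨fun i => a i + a' i, fun i => (wdeg_add_le w _ _).trans (max_le (ha i) (ha' i)), ?_⟩
      rw [mul_add, h1, h1', ← Finset.sum_add_distrib]
      refine Finset.sum_congr rfl fun i _ => ?_
      rw [map_add, add_mul]
    | smul r' x _ hx =>
      obtain ⟨a, ha, h1⟩ := hx
      refine ⟨fun i => r' • a i, fun i => (wdeg_smul_le w _ _).trans (ha i), ?_⟩
      rw [mul_smul_comm, h1, Finset.smul_sum]
      refine Finset.sum_congr rfl fun i _ => ?_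
      rw [map_smul, smul_mul_assoc]
  -- the determinant identity
  have hdet : ∀ m : ℕ, δ * weightedTotalDegree w q + m * weightedTotalDegree w N ≤
      δ * (m * D + c + c) := by
    intro m
    have hM : ∀ j, ∃ a : Fin δ → MvPolynomial (Fin r) k,
        (∀ i, weightedTotalDegree w (a i) ≤ m * D + c + c) ∧
        aeval (yb I y) q * (f ^ m * b j) = ∑ i, aeval (yb I y) (a i) * b i := by
      intro j
      exact hexp (m * D + c) _ (mem_Fil_mul I y w (NormA_pow I y w hf m)
        (mem_Fil_of_V I y w (hb j)))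
    choose a ha1 ha2 using hM
    let M : Matrix (Fin δ) (Fin δ) (MvPolynomial (Fin r) k) := Matrix.of fun i j => a j i
    have h1 : Algebra.leftMulMatrix b (algebraMap (KK I y) (FF I) (aeval (yk I y) q) * f ^ m) =
        (aeval (yk I y) : MvPolynomial (Fin r) k →ₐ[k] KK I y).toRingHom.mapMatrix M := by
      ext i j
      rw [Algebra.leftMulMatrix_eq_repr_mul]
      have h2 : algebraMap (KK I y) (FF I) (aeval (yk I y) q) * f ^ m * b j =
          ∑ i, (aeval (yk I y) (a j i) : KK I y) • b i := by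
        have h3 : algebraMap (KK I y) (FF I) (aeval (yk I y) q) = aeval (yb I y) q := hyk q
        rw [h3, mul_assoc, ha2 j]
        refine Finset.sum_congr rfl fun i _ => ?_
        rw [← hyk]
        rfl
      rw [h2, Module.Basis.repr_sum_self]
      rfl
    have h4 : Algebra.norm (KK I y) (algebraMap (KK I y) (FF I) (aeval (yk I y) q) * f ^ m) =
        aeval (yk I y) M.det := by
      rw [Algebra.norm_eq_matrix_det b, h1]
      exact (RingHom.map_det _ _).symm
    have h5 : aeval (yk I y) N = Algebra.norm (KK I y) f := by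
      apply Subtype.ext
      rw [hyk, hN]
    rw [map_mul, map_pow, Algebra.norm_algebraMap, hδ, ← h5, ← map_pow, ← map_pow, ← map_mul] at h4
    have h6 : q ^ δ * N ^ m = M.det := hinj h4
    have h7 : weightedTotalDegree w (q ^ δ * N ^ m) =
        δ * weightedTotalDegree w q + m * weightedTotalDegree w N := by
      rw [wdeg_mul w _ _ (pow_ne_zero _ hq) (pow_ne_zero _ hN0), wdeg_pow, wdeg_pow]
    rw [← h7, h6]
    exact wdeg_det_le w M _ (fun i j => ha1 j i)
  -- conclusion
  have h1 := hdet (2 * δ * c + 1)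
  by_contra hcon
  push Not at hcon
  have h2 : (2 * δ * c + 1) * (δ * D + 1) ≤ (2 * δ * c + 1) * weightedTotalDegree w N :=
    Nat.mul_le_mul_left _ hcon
  have h3 : δ * ((2 * δ * c + 1) * D + c + c) = (2 * δ * c + 1) * (δ * D) + 2 * δ * c := by ring
  have h4 : (2 * δ * c + 1) * (δ * D + 1) = (2 * δ * c + 1) * (δ * D) + (2 * δ * c + 1) := by ring
  omega

/-- Paper 1.5. -/
theorem GN.norm_deg {I : Ideal (MvPolynomial σ k)} [I.IsPrime] {y : Fin r → σ → k} (h : GN I y)
    (w : Fin r → ℕ) (hw : ∀ i, w i ≤ 1) {D : ℕ} {f : FF I} (hf : f ∈ Fil I y w D) :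
    ∃ N : MvPolynomial (Fin r) k, weightedTotalDegree w N ≤ deg I * D ∧
      ((Algebra.norm (KK I y) f : KK I y) : FF I) = aeval (yb I y) N := by
  obtain ⟨N, hN⟩ := h.norm_poly f (NormA_int h w hf)
  refine ⟨N, ?_, hN⟩
  by_cases hN0 : N = 0
  · rw [hN0, weightedTotalDegree_zero]
    exact Nat.zero_le _
  obtain ⟨c, b, q, hb, hq, hbas⟩ := h.basis
  rw [h.deg_eq]
  exact NormA_core h w hw hf hN hN0 b q hb hq hbas

end Pool.H76.NN
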