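import Pool.Agent.H76.NN.AsyB
import Pool.Agent.H76.NN.WDeg

/-!
MODULE Prim (about 120 lines).  Paper 1.8: a primitive linear form with small integer coefficients.
The `δ_y` embeddings `τ` of `FF I` over `K = KK I y` into an algebraic closure (`card_algHom_adjoin..`,
`AlgHom.card`, characteristic 0) have distinct `xi^τ` (`adjoin_xi`); the product over unordered pairs `τ ≠ τ'` of
`∑_s c_s (xi_s^τ - xi_s^τ')` is a nonzero polynomial in `c` of degree `≤ δ_y^2` in each variable; take a point of
`{0..δ_y^2}^σ` where it does not vanish (`exists_nat_point` over the algebraic closure).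
-/

set_option autoImplicit false

open MvPolynomial

namespace Pool.H76.NN

variable {k : Type} [Field k] [CharZero k] {σ : Type} [Fintype σ] [DecidableEq σ] {r : ℕ}

omit [CharZero k] in
private theorem ev_lf (I : Ideal (MvPolynomial σ k)) (c : σ → k) :
    ev I (lf c) = ∑ s, algebraMap k (FF I) (c s) * xi I s := by
  unfold lf
  rw [map_sum]
  refine Finset.sum_congr rfl fun s _ => ?_
  rw [map_mul]
  rfl

private theorem eval_lf {A : Type} [CommRing A] (c x : σ → A) :
    eval x (lf c) = ∑ s, c s * x s := by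
  unfold lf
  rw [map_sum]
  refine Finset.sum_congr rfl fun s _ => ?_
  rw [map_mul, eval_C, eval_X]

private theorem degreeOf_lf {A : Type} [Field A] [CharZero A] (c : σ → A) (s : σ) :
    (lf c).degreeOf s ≤ 1 :=
  (degreeOf_le_totalDegree _ _).trans (totalDegree_lf c)

/-- two embeddings which agree on the coordinates are equal -/
private theorem hom_ext (I : Ideal (MvPolynomial σ k)) [I.IsPrime] (y : Fin r → σ → k)
    {Ω : Type} [Field Ω] [Algebra (KK I y) Ω] (φ ψ : FF I →ₐ[KK I y] Ω)
    (h : ∀ s, φ (xi I s) = ψ (xi I s)) : φ = ψ := by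
  have hc : ∀ c : k, φ (algebraMap k (FF I) c) = ψ (algebraMap k (FF I) c) := by
    intro c
    rw [IsScalarTower.algebraMap_apply k (KK I y) (FF I), φ.commutes, ψ.commutes]
  have hx : ∀ x : FF I, x ∈ IntermediateField.adjoin k (Set.range (xi I)) → φ x = ψ x := by
    intro x hx
    induction hx using IntermediateField.adjoin_induction with
    | mem x hx =>
      obtain ⟨s, rfl⟩ := hx
      exact h s
    | algebraMap c => exact hc c
    | add x y _ _ h1 h2 => rw [map_add, map_add, h1, h2]
    | inv x _ h1 => rw [map_inv₀, map_inv₀, h1]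
    | mul x y _ _ h1 h2 => rw [map_mul, map_mul, h1, h2]
  apply AlgHom.ext
  intro x
  refine hx x ?_
  rw [adjoin_xi I]
  exact IntermediateField.mem_top

/-- Paper 1.8. -/
theorem exists_prim (I : Ideal (MvPolynomial σ k)) [I.IsPrime] (y : Fin r → σ → k)
    (hy : AlgebraicIndependent k (yb I y)) (hr : r = dim I) :
    ∃ c : σ → ℕ, (∀ s, c s ≤ (Module.finrank (KK I y) (FF I)) ^ 2) ∧
      IntermediateField.adjoin (KK I y) {ev I (lf (fun s => (c s : k)))} = ⊤ := by
  classical
  have hfin : FiniteDimensional (KK I y) (FF I) := finite_over_adjoin I (yb I y) hy hr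
  let Ω : Type := AlgebraicClosure (KK I y)
  have hchar : CharZero (KK I y) := charZero_of_injective_algebraMap
    (algebraMap k (KK I y)).injective
  have hcharΩ : CharZero Ω := charZero_of_injective_algebraMap
    (algebraMap (KK I y) Ω).injective
  have hsep : Algebra.IsSeparable (KK I y) (FF I) := inferInstance
  have hcard : Fintype.card (FF I →ₐ[KK I y] Ω) = Module.finrank (KK I y) (FF I) := by
    exact AlgHom.card (KK I y) (FF I) Ω
  let P : MvPolynomial σ Ω := ∏ q ∈ (Finset.univ : Finset (FF I →ₐ[KK I y] Ω)).offDiag,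
    lf (fun s => q.1 (xi I s) - q.2 (xi I s))
  have hP : P ≠ 0 := by
    rw [Finset.prod_ne_zero_iff]
    rintro ⟨φ, ψ⟩ hq
    rw [Finset.mem_offDiag] at hq
    intro h0
    refine hq.2.2 (hom_ext I y φ ψ fun s => ?_)
    have h1 := congrArg (eval (Pi.single s (1 : Ω))) h0
    rw [eval_lf, map_zero] at h1
    rw [Finset.sum_eq_single s] at h1
    · rw [Pi.single_eq_same, mul_one] at h1
      exact sub_eq_zero.1 h1
    · intro t _ hts
      rw [Pi.single_eq_of_ne hts, mul_zero]
    · intro h
      exact absurd (Finset.mem_univ s) h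
  have hdeg : ∀ s, P.degreeOf s ≤ Module.finrank (KK I y) (FF I) ^ 2 := by
    intro s
    refine (degreeOf_prod_le _ _ _).trans ?_
    refine (Finset.sum_le_sum (g := fun _ => 1) fun q _ => degreeOf_lf _ _).trans ?_
    rw [Finset.sum_const, smul_eq_mul, mul_one, Finset.offDiag_card, Finset.card_univ, hcard, sq]
    exact Nat.sub_le _ _
  obtain ⟨c, hc, hcP⟩ := exists_nat_point P hP hdeg
  refine ⟨c, hc, ?_⟩
  rw [Field.primitive_element_iff_algHom_eq_of_eval' (KK I y) Ω
    (fun x => IsAlgClosed.splits _)]
  intro φ ψ hφψ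
  by_contra hne
  rw [map_prod, Finset.prod_ne_zero_iff] at hcP
  refine hcP (φ, ψ) (by rw [Finset.mem_offDiag]; exact ⟨Finset.mem_univ _, Finset.mem_univ _, hne⟩) ?_
  rw [eval_lf]
  have h1 : ∀ χ : FF I →ₐ[KK I y] Ω, χ (ev I (lf (fun s => (c s : k)))) =
      ∑ s, χ (xi I s) * (c s : Ω) := by
    intro χ
    rw [ev_lf, map_sum]
    refine Finset.sum_congr rfl fun s _ => ?_
    rw [map_mul, map_natCast, map_natCast, mul_comm]
  have h2 : ∑ s, (φ (xi I s) - ψ (xi I s)) * (c s : Ω) =
      ∑ s, φ (xi I s) * (c s : Ω) - ∑ s, ψ (xi I s) * (c s : Ω) := by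
    rw [← Finset.sum_sub_distrib]
    refine Finset.sum_congr rfl fun s _ => ?_
    ring
  rw [h2, ← h1, ← h1, sub_eq_zero]
  exact hφψ

/-- The powers of a primitive element below the degree are linearly independent. -/
theorem linInd_pow (I : Ideal (MvPolynomial σ k)) [I.IsPrime] (y : Fin r → σ → k)
    (hy : AlgebraicIndependent k (yb I y)) (hr : r = dim I) (v : FF I)
    (hv : IntermediateField.adjoin (KK I y) {v} = ⊤) :
    LinearIndependent (KK I y) (fun b : Fin (Module.finrank (KK I y) (FF I)) => v ^ (b : ℕ)) := by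
  have hfin : FiniteDimensional (KK I y) (FF I) := finite_over_adjoin I (yb I y) hy hr
  have h1 : Module.finrank (KK I y) (FF I) = (minpoly (KK I y) v).natDegree := by
    rw [← IntermediateField.adjoin.finrank (Algebra.IsIntegral.isIntegral v), hv,
      IntermediateField.finrank_top']
  rw [h1]
  exact linearIndependent_pow v

end Pool.H76.NN
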